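import Pool.Agent.Helper89.TQ.Spec

/-!
# TQ / BRIDGE, second half: the conditions on the rows
-/

set_option autoImplicit false

namespace Pool.Agent.Helper8.TQ.BR2

open Finset Pool.Agent.R6.Trade Pool.Agent.Helper89.TQ

theorem vec_insert {N : Type} [DecidableEq N] (τ : N → Fin 3) {S : Finset N} {u : N}
    (hu : u ∉ S) (i : Fin 3) :
    vec τ (insert u S) i = vec τ S i + if τ u = i then 1 else 0 := by
  unfold vec
  rw [filter_insert]
  split_ifs with h
  · rw [card_insert_of_notMem (fun h' => hu (mem_filter.1 h').1)]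
  · rfl

theorem vec_le {N : Type} [Fintype N] [DecidableEq N] (τ : N → Fin 3) (S : Finset N)
    (i : Fin 3) : vec τ S i ≤ nn τ i :=
  card_le_card (filter_subset_filter _ (subset_univ S))

theorem vec_lt {N : Type} [Fintype N] [DecidableEq N] (τ : N → Fin 3) {S : Finset N} {u : N}
    (hu : u ∉ S) : vec τ S (τ u) < nn τ (τ u) := by
  have h1 := vec_le τ (insert u S) (τ u)
  rw [vec_insert τ hu, if_pos rfl] at h1
  omega

/-- the remaining clauses of BRIDGE -/
theorem br2 (N : Type) [Fintype N] [DecidableEq N] (W : Finset N → Prop)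
    (τ : N → Fin 3) (a b : Fin 3 → ℕ) (hsurj : Function.Surjective τ)
    (hal : ∀ u v, AtLeast W u v ↔ τ u ≤ τ v) (hab : a ≠ b)
    (hmin : ∀ v, MinWin W τ v ↔ v = a ∨ v = b) (hW : ∀ S, W S ↔ Win a b (vec τ S)) :
    (∀ i, a i ≤ nn τ i) ∧ (∀ i, b i ≤ nn τ i) ∧ ¬ GE a b ∧ ¬ GE b a ∧
    ((0 < a 0 ∧ a 1 < nn τ 1) ∨ (0 < b 0 ∧ b 1 < nn τ 1)) ∧
    ((0 < a 1 ∧ a 2 < nn τ 2) ∨ (0 < b 1 ∧ b 2 < nn τ 2)) := by
  obtain ⟨⟨Sa, hSa, hSa'⟩, ha⟩ := (hmin a).2 (Or.inl rfl)
  obtain ⟨⟨Sb, hSb, hSb'⟩, hb⟩ := (hmin b).2 (Or.inr rfl)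
  refine ⟨fun i => hSa' ▸ vec_le τ Sa i, fun i => hSb' ▸ vec_le τ Sb i, ?_, ?_, ?_, ?_⟩
  · intro h
    have := ha Sb hSb (by rw [hSb']; exact h)
    rw [hSb'] at this
    exact hab this.symm
  · intro h
    have := hb Sa hSa (by rw [hSa']; exact h)
    rw [hSa'] at this
    exact hab this
  · obtain ⟨u, hu⟩ := hsurj 0
    obtain ⟨v, hv⟩ := hsurj 1
    have h1 : ¬ AtLeast W v u := by
      rw [hal, hu, hv]; decide
    unfold AtLeast at h1
    push Not at h1
    obtain ⟨S, hvS, huS, h2, h3⟩ := h1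
    rw [hW] at h2 h3
    have l1 := vec_lt τ hvS
    rw [hv] at l1
    have e0 := vec_insert τ huS 0
    have e1 := vec_insert τ huS 1
    have e2 := vec_insert τ huS 2
    have f0 := vec_insert τ hvS 0
    have f1 := vec_insert τ hvS 1
    have f2 := vec_insert τ hvS 2
    rw [hu] at e0 e1 e2
    rw [hv] at f0 f1 f2
    simp only [reduceIte, Fin.reduceEq] at e0 e1 e2 f0 f1 f2
    unfold Win GE at h2 h3
    rw [e0, e1, e2] at h2
    rw [f0, f1, f2] at h3
    omega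
  · obtain ⟨u, hu⟩ := hsurj 1
    obtain ⟨v, hv⟩ := hsurj 2
    have h1 : ¬ AtLeast W v u := by
      rw [hal, hu, hv]; decide
    unfold AtLeast at h1
    push Not at h1
    obtain ⟨S, hvS, huS, h2, h3⟩ := h1
    rw [hW] at h2 h3
    have l1 := vec_lt τ hvS
    rw [hv] at l1
    have e0 := vec_insert τ huS 0
    have e1 := vec_insert τ huS 1
    have e2 := vec_insert τ huS 2
    have f0 := vec_insert τ hvS 0
    have f1 := vec_insert τ hvS 1
    have f2 := vec_insert τ hvS 2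
    rw [hu] at e0 e1 e2
    rw [hv] at f0 f1 f2
    simp only [reduceIte, Fin.reduceEq] at e0 e1 e2 f0 f1 f2
    unfold Win GE at h2 h3
    rw [e0, e1, e2] at h2
    rw [f0, f1, f2] at h3
    omega

end Pool.Agent.Helper8.TQ.BR2
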