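import Pool.Agent.Helper8.TQ.BR2

/-!
# TQ / BRIDGE, first half: winning coalitions and shift-minimal winning vectors
-/

set_option autoImplicit false

namespace Pool.Agent.Helper8.TQ.BR1

open Finset Pool.Agent.R6.Trade Pool.Agent.Helper89.TQ Pool.Agent.Helper8.TQ.BR2

theorem exists_out {N : Type} [Fintype N] [DecidableEq N] (τ : N → Fin 3) (S : Finset N)
    (i : Fin 3) (h : vec τ S i < nn τ i) : ∃ u, u ∉ S ∧ τ u = i := by
  by_contra hcon
  push Not at hcon
  have : univ.filter (fun v => τ v = i) ⊆ S.filter (fun v => τ v = i) := by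
    intro v hv
    have hv' := (mem_filter.1 hv).2
    refine mem_filter.2 ⟨?_, hv'⟩
    by_contra hvS
    exact hcon v hvS hv'
  have := card_le_card this
  unfold vec nn at h
  omega

theorem exists_in {N : Type} [DecidableEq N] (τ : N → Fin 3) (S : Finset N)
    (i : Fin 3) (h : 0 < vec τ S i) : ∃ u, u ∈ S ∧ τ u = i := by
  obtain ⟨u, hu⟩ := card_pos.1 h
  exact ⟨u, (mem_filter.1 hu).1, (mem_filter.1 hu).2⟩

/-- adding a voter of type `i` -/
theorem add_step {N : Type} [Fintype N] [DecidableEq N] (W : Finset N → Prop) (τ : N → Fin 3)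
    (hs : IsSimple W) (S : Finset N) (hS : W S) (i : Fin 3) (h : vec τ S i < nn τ i) :
    ∃ S', W S' ∧ ∀ l, vec τ S' l = vec τ S l + if i = l then 1 else 0 := by
  obtain ⟨u, hu, rfl⟩ := exists_out τ S i h
  exact ⟨insert u S, hs.2.2 S _ (subset_insert u S) hS, vec_insert τ hu⟩

/-- replacing a voter of type `j` by a voter of type `i < j` -/
theorem rep_step {N : Type} [Fintype N] [DecidableEq N] (W : Finset N → Prop) (τ : N → Fin 3)
    (hal : ∀ u v, AtLeast W u v ↔ τ u ≤ τ v) (S : Finset N) (hS : W S) (i j : Fin 3)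
    (hij : i < j) (h : vec τ S i < nn τ i) (h' : 0 < vec τ S j) :
    ∃ S', W S' ∧ ∀ l, vec τ S' l + (if j = l then 1 else 0) =
      vec τ S l + if i = l then 1 else 0 := by
  obtain ⟨u, hu, rfl⟩ := exists_out τ S i h
  obtain ⟨v, hv, rfl⟩ := exists_in τ S j h'
  have huS : u ∉ S.erase v := fun h => hu (mem_of_mem_erase h)
  have hvS : v ∉ S.erase v := notMem_erase v S
  refine ⟨insert u (S.erase v), ?_, fun l => ?_⟩
  · exact (hal u v).2 hij.le (S.erase v) huS hvS (by rwa [insert_erase hv])
  · have e1 := vec_insert τ huS l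
    have e2 := vec_insert τ hvS l
    rw [insert_erase hv] at e2
    rw [e1, e2]
    omega

/-- shift monotonicity -/
theorem mono {N : Type} [Fintype N] [DecidableEq N] (W : Finset N → Prop) (τ : N → Fin 3)
    (hs : IsSimple W) (hal : ∀ u v, AtLeast W u v ↔ τ u ≤ τ v) (T : Finset N) :
    ∀ (D : ℕ) (S : Finset N), W S → GE (vec τ T) (vec τ S) →
      (3 * vec τ T 0 + 2 * vec τ T 1 + vec τ T 2) -
        (3 * vec τ S 0 + 2 * vec τ S 1 + vec τ S 2) ≤ D → W T := by
  intro D
  induction D with
  | zero =>
    intro S hS hge hD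
    unfold GE at hge
    have : vec τ S = vec τ T := by
      funext i
      fin_cases i <;> simp only [Fin.zero_eta, Fin.mk_one, Fin.reduceFinMk] <;> omega
    exact win_of_vec_eq hs.2.2 τ (fun a b h => (hal a b).2 h.le) _ S T rfl this hS
  | succ D ih =>
    intro S hS hge hD
    unfold GE at hge
    have t0 := BR2.vec_le τ T 0
    have t1 := BR2.vec_le τ T 1
    have t2 := BR2.vec_le τ T 2
    by_cases h0 : vec τ S 0 < vec τ T 0
    · by_cases h1 : vec τ S 0 + vec τ S 1 < vec τ T 0 + vec τ T 1
      · by_cases h2 : vec τ S 0 + vec τ S 1 + vec τ S 2 < vec τ T 0 + vec τ T 1 + vec τ T 2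
        · obtain ⟨S', hS', he⟩ := add_step W τ hs S hS 0 (by omega)
          have e0 := he 0
          have e1 := he 1
          have e2 := he 2
          simp only [reduceIte, Fin.reduceEq] at e0 e1 e2
          exact ih S' hS' (by unfold GE; omega) (by omega)
        · obtain ⟨S', hS', he⟩ := rep_step W τ hal S hS 0 2 (by decide) (by omega) (by omega)
          have e0 := he 0
          have e1 := he 1
          have e2 := he 2
          simp only [reduceIte, Fin.reduceEq] at e0 e1 e2
          exact ih S' hS' (by unfold GE; omega) (by omega)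
      · obtain ⟨S', hS', he⟩ := rep_step W τ hal S hS 0 1 (by decide) (by omega) (by omega)
        have e0 := he 0
        have e1 := he 1
        have e2 := he 2
        simp only [reduceIte, Fin.reduceEq] at e0 e1 e2
        exact ih S' hS' (by unfold GE; omega) (by omega)
    · by_cases h1 : vec τ S 0 + vec τ S 1 < vec τ T 0 + vec τ T 1
      · by_cases h2 : vec τ S 0 + vec τ S 1 + vec τ S 2 < vec τ T 0 + vec τ T 1 + vec τ T 2
        · obtain ⟨S', hS', he⟩ := add_step W τ hs S hS 1 (by omega)
          have e0 := he 0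
          have e1 := he 1
          have e2 := he 2
          simp only [reduceIte, Fin.reduceEq] at e0 e1 e2
          exact ih S' hS' (by unfold GE; omega) (by omega)
        · obtain ⟨S', hS', he⟩ := rep_step W τ hal S hS 1 2 (by decide) (by omega) (by omega)
          have e0 := he 0
          have e1 := he 1
          have e2 := he 2
          simp only [reduceIte, Fin.reduceEq] at e0 e1 e2
          exact ih S' hS' (by unfold GE; omega) (by omega)
      · by_cases h2 : vec τ S 0 + vec τ S 1 + vec τ S 2 < vec τ T 0 + vec τ T 1 + vec τ T 2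
        · obtain ⟨S', hS', he⟩ := add_step W τ hs S hS 2 (by omega)
          have e0 := he 0
          have e1 := he 1
          have e2 := he 2
          simp only [reduceIte, Fin.reduceEq] at e0 e1 e2
          exact ih S' hS' (by unfold GE; omega) (by omega)
        · exact ih S hS (by unfold GE; omega) (by omega)

/-- the last clause of BRIDGE -/
theorem br1 (N : Type) [Fintype N] [DecidableEq N] (W : Finset N → Prop)
    (τ : N → Fin 3) (a b : Fin 3 → ℕ) (hs : IsSimple W)
    (hal : ∀ u v, AtLeast W u v ↔ τ u ≤ τ v)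
    (hmin : ∀ v, MinWin W τ v ↔ v = a ∨ v = b) : ∀ S, W S ↔ Win a b (vec τ S) := by
  have key : ∀ (D : ℕ) (S : Finset N), W S →
      3 * vec τ S 0 + 2 * vec τ S 1 + vec τ S 2 ≤ D → Win a b (vec τ S) := by
    intro D
    induction D using Nat.strong_induction_on with
    | _ D ih =>
      intro S hS hD
      by_cases hm : MinWin W τ (vec τ S)
      · rcases (hmin _).1 hm with h | h
        · left; rw [h]; exact ⟨le_rfl, le_rfl, le_rfl⟩
        · right; rw [h]; exact ⟨le_rfl, le_rfl, le_rfl⟩
      · unfold MinWin at hm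
        push Not at hm
        obtain ⟨S', hS', hge, hne⟩ := hm ⟨S, hS, rfl⟩
        have hlt : 3 * vec τ S' 0 + 2 * vec τ S' 1 + vec τ S' 2 <
            3 * vec τ S 0 + 2 * vec τ S 1 + vec τ S 2 := by
          unfold GE at hge
          by_contra hcon
          apply hne
          funext i
          fin_cases i <;> simp only [Fin.zero_eta, Fin.mk_one, Fin.reduceFinMk] <;> omega
        have h1 := ih _ (lt_of_lt_of_le hlt hD) S' hS' le_rfl
        unfold Win GE at h1 ⊢
        unfold GE at hge
        omega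
  obtain ⟨⟨Sa, hSa, hSa'⟩, -⟩ := (hmin a).2 (Or.inl rfl)
  obtain ⟨⟨Sb, hSb, hSb'⟩, -⟩ := (hmin b).2 (Or.inr rfl)
  intro S
  refine ⟨fun h => key _ S h le_rfl, ?_⟩
  rintro (h | h)
  · exact mono W τ hs hal S _ Sa hSa (by rw [hSa']; exact h) le_rfl
  · exact mono W τ hs hal S _ Sb hSb (by rw [hSb']; exact h) le_rfl

/-- BRIDGE -/
theorem main : S_BRIDGE := by
  intro N _ _ W τ a b hs hsurj hal hab hmin
  have hW := br1 N W τ a b hs hal hmin
  obtain ⟨h1, h2, h3, h4, h5, h6⟩ := br2 N W τ a b hsurj hal hab hmin hW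
  exact ⟨h1, h2, h3, h4, h5, h6, hW⟩

end Pool.Agent.Helper8.TQ.BR1
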