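import Pool.Agent.Helper89.TQ.Ctx

set_option autoImplicit false
set_option linter.all false
set_option maxRecDepth 10000

namespace Pool.Agent.Helper8.TQ

open Pool.Agent.Helper89.TQ

theorem c0_11_11_33_k0 {n1 n2 n3 A1 A2 A3 B1 B2 B3 m11_1 m11_2 m11_3 m13_1 m13_2 m13_3 m22_1 m22_2 m22_3 m23_1 m23_2 m23_3 m33_1 m33_2 m33_3 : ℤ}
    (C : Ctx0 n1 n2 n3 A1 A2 A3 B1 B2 B3 m11_1 m11_2 m11_3 m13_1 m13_2 m13_3 m22_1 m22_2 m22_3 m23_1 m23_2 m23_3 m33_1 m33_2 m33_3)
    (e0 : 0 < B1)
    (e1 : 0 < A3)
    (s1 : 0 * A1 + 3 * B1 ≤ m11_1 + m11_1 + m33_1)
    (s2 : 0 * A2 + 3 * B2 ≤ m11_2 + m11_2 + m33_2)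
    (s3 : 0 * A3 + 3 * B3 ≤ m11_3 + m11_3 + m33_3) : False := by
  have h_a1 := C.a1
  have h_a2 := C.a2
  have h_a3 := C.a3
  have h_a4 := C.a4
  have h_b3 := C.b3
  have h_b5 := C.b5
  have h_o0 := C.o0
  have h_o1 := C.o1
  have h_o2 := C.o2
  have h_t12 : (0 < A1 ∧ A2 < A1 + n2) ∨ (0 < B1 ∧ B2 < B1 + n2) := by have h := C.t12; clear * - h; omega
  have h_t23 : (A1 < A2 ∧ A3 < A2 + n3) ∨ (B1 < B2 ∧ B3 < B2 + n3) := by have h := C.t23; clear * - h; omega
  have h_f11_0 := C.f11_0
  have h_f11_1 := C.f11_1
  have h_f11_2 := C.f11_2
  have h_f33_0 := C.f33_0
  have h_f33_1 := C.f33_1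
  have h_f33_2 : m33_1 = n1 ∨ m33_1 = A3 - 1 := by have h := C.f33_2; clear * - h; omega
  have h_f33_3 := C.f33_3
  have h_f33_4 := C.f33_4
  have h_f33_5 : m33_2 = m33_1 + n2 ∨ m33_2 = A3 - 1 := by have h := C.f33_5; clear * - h; omega
  have h_f33_7 := C.f33_7
  have h_f33_8 : m33_3 = m33_2 + n3 ∨ m33_3 = A3 - 1 := by have h := C.f33_8; clear * - h; omega
  have h_f23_0 := C.f23_0
  have h_f23_1 := C.f23_1
  have h_f23_3 : m23_1 = n1 ∨ m23_1 = A2 - 1 ∨ m23_1 = B3 - 1 := by have h := C.f23_3; clear * - h; omega
  have h_f23_5 := C.f23_5
  have h_f23_7 : m23_2 = m23_1 + n2 ∨ m23_2 = A2 - 1 ∨ m23_2 = B3 - 1 := by have h := C.f23_7; clear * - h; omega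
  have h_f23_8 := C.f23_8
  have h_f23_9 := C.f23_9
  have h_f23_10 : m23_3 = m23_2 + n3 ∨ m23_3 = B3 - 1 := by have h := C.f23_10; clear * - h; omega
  have h_f22_1 := C.f22_1
  have h_f22_2 : m22_1 = n1 ∨ m22_1 = B2 - 1 := by have h := C.f22_2; clear * - h; omega
  have h_f22_4 := C.f22_4
  have h_f22_5 : m22_2 = m22_1 + n2 ∨ m22_2 = B2 - 1 := by have h := C.f22_5; clear * - h; omega
  have h_f22_6 := C.f22_6
  have h_p11_33B : 0 ≥ B1 ∨ 0 ≥ A3 ∨ 2 * B1 > m11_1 + m33_1 ∨ 2 * B2 > m11_2 + m33_2 ∨ 2 * B3 > m11_3 + m33_3 := by have h := C.p11_33B; clear * - h; omega
  have h_tzpm : A1 + 1 > A2 ∨ A3 + 2 > A2 + n3 ∨ B2 + 1 > B1 + n2 ∨ B2 + 2 > B3 ∨ (A2 ≥ B2 + 1 ∧ A3 ≥ B3 - 1) := by have h := C.tzpm; clear * - h; omega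
  have h_tpmz : 1 > A1 ∨ A2 + 2 > A1 + n2 ∨ A2 + 1 > A3 ∨ B1 + 1 > n1 ∨ B1 + 2 > B2 ∨ B3 + 1 > B2 + n3 := by have h := C.tpmz; clear * - h; omega
  have h_tzmp : A2 + 1 > A1 + n2 ∨ A2 + 2 > A3 ∨ B1 + 1 > B2 ∨ B3 + 2 > B2 + n3 := by have h := C.tzmp; clear * - h; omega
  have h_p11_23B : 0 ≥ B1 ∨ 0 ≥ A2 ∨ 0 ≥ B3 ∨ 2 * B1 > m11_1 + m23_1 ∨ 2 * B2 > m11_2 + m23_2 ∨ 2 * B3 > m11_3 + m23_3 := by have h := C.p11_23B; clear * - h; omega
  have h_p11_22B : 0 ≥ B1 ∨ 0 ≥ B2 ∨ 2 * B1 > m11_1 + m22_1 ∨ 2 * B2 > m11_2 + m22_2 ∨ 2 * B3 > m11_3 + m22_3 := by have h := C.p11_22B; clear * - h; omega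
  have h_p22_33A : 0 ≥ B2 ∨ 0 ≥ A3 ∨ 2 * A1 > m22_1 + m33_1 ∨ 2 * A2 > m22_2 + m33_2 ∨ 2 * A3 > m22_3 + m33_3 := by have h := C.p22_33A; clear * - h; omega
  clear C
  rcases h_f33_8 with q4_0 | q4_1
  · rcases h_f33_5 with q3_0 | q3_1
    · linarith only [h_f33_7, h_f11_1, h_f11_2, h_o2, s1, s3, q3_0, q4_0, h_f11_0]
    · linarith only [h_f33_7, h_a4, h_b5, h_o2, q4_0, q3_1, h_o1]
  · rcases h_p11_33B with q10_0 | q10_1 | q10_2 | q10_3 | q10_4
    · linarith only [q10_0, e0]
    · linarith only [q10_1, h_o0, h_a2, h_a4, e0]
    · linarith only [q10_2, s1, h_f11_0]
    · rcases h_f33_5 with q3_0 | q3_1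
      · linarith only [s2, h_f11_1, q10_3, s1, q3_0, h_f11_0]
      · linarith only [s2, h_a4, q10_3, h_o1, q3_1]
    · rcases h_t23 with ⟨q1_0_0, q1_0_1⟩ | ⟨q1_1_0, q1_1_1⟩
      · rcases h_f23_7 with q6_0 | q6_1 | q6_2
        · rcases h_f23_3 with q5_0 | q5_1 | q5_2
          · linarith only [h_a3, h_a1, q6_0, q5_0, h_f23_5]
          · linarith only [h_a3, q1_0_0, q6_0, q5_1, h_f23_5]
          · linarith only [h_a3, q1_0_0, h_a4, h_o2, q6_0, q5_2, h_f23_5]
        · rcases h_p11_23B with q17_0 | q17_1 | q17_2 | q17_3 | q17_4 | q17_5
          · linarith only [q17_0, e0]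
          · linarith only [q17_1, h_o0, q1_0_0, e0]
          · linarith only [q17_2, h_o0, q1_0_0, h_a4, e0, h_o2]
          · rcases h_f23_3 with q5_0 | q5_1 | q5_2
            · linarith only [h_f33_0, h_a1, h_o0, s1, q5_0, q17_3]
            · linarith only [h_f11_0, h_o0, q1_0_0, q5_1, q17_3]
            · linarith only [h_f33_1, h_o0, q1_0_0, h_a4, h_o2, s1, q5_2, q17_3]
          · rcases h_tzmp with q16_0 | q16_1 | q16_2 | q16_3
            · rcases h_t12 with ⟨q0_0_0, q0_0_1⟩ | ⟨q0_1_0, q0_1_1⟩
              · linarith only [q0_0_1, q16_0]
              · linarith only [h_f11_1, h_f11_0, h_o0, q0_1_1, q17_4, q16_0, q6_1]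
            · rcases h_tzpm with q11_0 | q11_1 | q11_2 | q11_3 | ⟨q11_4_0, q11_4_1⟩
              · linarith only [q11_0, q1_0_0]
              · linarith only [q11_1, h_f11_2, q17_4, h_o2, s3, h_f33_7, q6_1, h_o1]
              · linarith only [q16_1, h_f11_1, h_f33_4, q17_4, q6_1, h_f11_0, s2, q11_2]
              · linarith only [h_f33_4, q11_3, q17_4, h_o2, q6_1, s2, h_o1]
              · linarith only [q16_1, h_f33_4, q17_4, q6_1, s2, q11_4_0]
            · linarith only [h_f11_1, h_f11_0, h_o0, q1_0_0, q17_4, q6_1, h_a3, q16_2]
            · rcases h_tzpm with q11_0 | q11_1 | q11_2 | q11_3 | ⟨q11_4_0, q11_4_1⟩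
              · linarith only [q11_0, q1_0_0]
              · linarith only [q11_1, h_f11_2, q17_4, h_o2, s3, h_f33_7, q6_1, h_o1]
              · linarith only [q16_3, h_f11_1, h_f11_2, h_o2, s3, h_f33_7, h_f11_0, q11_2]
              · linarith only [h_f33_4, q11_3, q17_4, h_o2, q6_1, s2, h_o1]
              · linarith only [q16_3, h_f11_2, q17_4, h_o2, s3, h_f33_7, q6_1, q11_4_0]
          · rcases h_f23_10 with q7_0 | q7_1
            · linarith only [h_f33_7, h_b5, h_o2, s3, q7_0, q6_1, q17_5, h_o1]
            · linarith only [h_f33_7, h_o2, s3, q7_1, q17_5]
        · linarith only [h_a4, h_f23_5, h_o2, q6_2]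
      · rcases h_f22_5 with q9_0 | q9_1
        · rcases h_f22_2 with q8_0 | q8_1
          · linarith only [h_f22_4, h_a1, q9_0, h_o0, h_b3, q8_0]
          · linarith only [h_b3, q9_0, h_f22_4, q1_1_0, q8_1]
        · rcases h_f23_7 with q6_0 | q6_1 | q6_2
          · rcases h_f23_3 with q5_0 | q5_1 | q5_2
            · linarith only [h_a1, q6_0, h_f23_5, q5_0, h_a3]
            · linarith only [h_b3, q6_0, q5_1, h_f23_5, q1_1_0]
            · linarith only [h_b3, q6_0, h_f23_5, h_a4, h_o2, q5_2, q1_1_0]
          · rcases h_f23_10 with q7_0 | q7_1
            · linarith only [h_o1, q1_1_1, q7_0, q6_1, h_f23_9]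
            · rcases h_t12 with ⟨q0_0_0, q0_0_1⟩ | ⟨q0_1_0, q0_1_1⟩
              · rcases h_f22_2 with q8_0 | q8_1
                · rcases h_p11_22B with q18_0 | q18_1 | q18_2 | q18_3 | q18_4
                  · linarith only [q18_0, e0]
                  · linarith only [q1_1_0, e0, q18_1]
                  · linarith only [h_f33_0, h_a1, h_o0, s1, q8_0, q18_2]
                  · rcases h_f33_2 with q2_0 | q2_1
                    · rcases h_p22_33A with q19_0 | q19_1 | q19_2 | q19_3 | q19_4
                      · linarith only [q1_1_0, e0, q19_0]
                      · linarith only [q19_1, h_o0, h_a2, h_a4, e0]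
                      · linarith only [q19_2, h_a1, q8_0, q2_0]
                      · rcases h_f23_3 with q5_0 | q5_1 | q5_2
                        · rcases h_p11_23B with q17_0 | q17_1 | q17_2 | q17_3 | q17_4 | q17_5
                          · linarith only [q17_0, e0]
                          · linarith only [q17_1, h_o0, h_a2, e0]
                          · linarith only [q17_2, h_o0, h_a2, h_a4, e0, h_o2]
                          · linarith only [h_f33_0, h_a1, h_o0, s1, q5_0, q17_3]
                          · rcases h_tpmz with q12_0 | q12_1 | q12_2 | q12_3 | q12_4 | q12_5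
                            · linarith only [q12_0, h_o0, e0]
                            · rcases h_tzmp with q16_0 | q16_1 | q16_2 | q16_3
                              · linarith only [q0_0_1, q16_0]
                              · linarith only [q6_1, h_f11_1, h_o0, h_f11_0, h_f33_4, q17_4, s2, q12_1, q16_1]
                              · linarith only [q16_2, h_a1, h_o0, q8_0, h_f22_1]
                              · linarith only [q16_3, h_f11_1, h_f11_2, h_o0, h_f11_0, q17_4, h_o2, s3, h_f33_7, q12_1, q6_1]
                            · linarith only [q17_4, h_f33_4, q18_3, q12_2, s2, q9_1, q6_1]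
                            · linarith only [q12_3, h_a1, h_o0]
                            · linarith only [q12_4, h_a1, h_o0, q8_0, h_f22_1]
                            · linarith only [q12_5, h_f11_2, h_f33_7, q18_3, h_o2, s3, q9_1]
                          · linarith only [q17_5, h_f33_7, h_o2, s3, q7_1]
                        · rcases h_tzpm with q11_0 | q11_1 | q11_2 | q11_3 | ⟨q11_4_0, q11_4_1⟩
                          · linarith only [q11_0, h_a1, q18_3, q8_0, q19_3, h_f22_1, s2, q9_1]
                          · linarith only [q11_1, h_f11_2, h_f33_7, q18_3, h_o2, s3, q19_3, s2, q9_1]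
                          · linarith only [q9_1, h_f11_1, h_f11_0, h_f23_0, q19_3, q8_0, h_f22_1, q5_1, s2, q11_2]
                          · linarith only [q11_3, h_f33_4, q18_3, h_o2, s2, q9_1]
                          · linarith only [h_f23_0, q11_4_0, q8_0, h_f22_1, q5_1]
                        · linarith only [h_f23_0, h_f33_4, q18_3, h_o2, q8_0, h_f22_1, q5_2, s2, q9_1]
                      · linarith only [q4_1, h_f11_2, q19_4, q18_3, h_o2, h_f22_6, s3, q9_1]
                    · linarith only [q2_1, h_f33_0, q9_1, h_f33_4, q18_3, q8_0, h_f22_1, s2]
                  · linarith only [h_f33_7, q1_1_1, h_o2, h_f22_6, s3, q9_1, q18_4]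
                · rcases h_f33_2 with q2_0 | q2_1
                  · rcases h_f33_5 with q3_0 | q3_1
                    · rcases h_tzmp with q16_0 | q16_1 | q16_2 | q16_3
                      · linarith only [q16_0, q0_0_1]
                      · linarith only [h_a1, q3_0, q16_1, q0_0_1, h_f33_4, q2_0]
                      · linarith only [q16_2, q1_1_0]
                      · rcases h_f23_3 with q5_0 | q5_1 | q5_2
                        · rcases h_tzpm with q11_0 | q11_1 | q11_2 | q11_3 | ⟨q11_4_0, q11_4_1⟩
                          · linarith only [h_f23_1, h_a1, q11_0, q5_0]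
                          · linarith only [h_o1, q1_1_1, h_o2, q11_1]
                          · linarith only [q16_3, h_f11_2, q11_2, h_f11_0, s3, h_o2, h_f33_7, h_f11_1]
                          · linarith only [q11_3, h_a1, q3_0, h_o0, h_f11_0, h_o2, h_f33_4, s2, q2_0, h_f11_1]
                          · rcases h_p11_23B with q17_0 | q17_1 | q17_2 | q17_3 | q17_4 | q17_5
                            · linarith only [q17_0, e0]
                            · linarith only [q11_4_0, q17_1, e0, q1_1_0]
                            · linarith only [q17_2, h_o0, h_a2, h_a4, e0, h_o2]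
                            · linarith only [h_f33_0, s1, h_f11_0, q5_0, q17_3]
                            · linarith only [h_f33_7, q11_4_0, h_f11_2, q17_4, h_o2, s3, q6_1, q16_3]
                            · linarith only [s3, q17_5, h_o2, h_f33_7, q7_1]
                        · rcases h_p11_23B with q17_0 | q17_1 | q17_2 | q17_3 | q17_4 | q17_5
                          · linarith only [q17_0, e0]
                          · linarith only [h_o1, q17_1, e0, q1_1_0]
                          · linarith only [q17_2, h_o0, h_a2, h_a4, e0, h_o2]
                          · rcases h_p22_33A with q19_0 | q19_1 | q19_2 | q19_3 | q19_4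
                            · linarith only [q19_0, e0, q1_1_0]
                            · linarith only [q19_1, h_o1, e0, q1_1_0, h_a4]
                            · linarith only [h_a2, q17_3, q19_2, q1_1_0, s1, q8_1, q5_1]
                            · linarith only [s2, q17_3, h_f11_1, q19_3, q1_1_0, s1, q9_1, q5_1, q3_0]
                            · linarith only [q1_1_1, q19_4, q10_4, s3, h_f22_6, q9_1, q4_1]
                          · rcases h_tpmz with q12_0 | q12_1 | q12_2 | q12_3 | q12_4 | q12_5
                            · linarith only [q12_0, h_o0, e0]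
                            · linarith only [h_f33_7, h_f11_0, h_f11_1, h_f11_2, h_o0, q17_4, h_o2, s3, q6_1, q16_3, q12_1]
                            · linarith only [q12_2, h_a1, h_f33_4, q3_0, q2_0, q0_0_1]
                            · linarith only [q12_3, h_a1, h_o0]
                            · rcases h_p22_33A with q19_0 | q19_1 | q19_2 | q19_3 | q19_4
                              · linarith only [q19_0, e0, q1_1_0]
                              · linarith only [q19_1, h_o1, e0, q1_1_0, h_a4]
                              · linarith only [h_f11_2, q17_4, q12_4, q19_2, q16_3, h_a2, q10_4, s1, s3, q8_1, q6_1, h_f11_0]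
                              · linarith only [h_f11_1, q6_1, q16_3, q17_4, q19_3, q10_4, s1, s3, q9_1, h_f11_2, q3_0, h_f11_0]
                              · linarith only [h_f11_2, q17_4, h_f23_8, q19_4, q10_4, s3, h_f22_6, q9_1, q7_1, q4_1]
                            · linarith only [h_f33_7, h_f11_2, q17_4, h_o2, q12_5, s3, q6_1, h_o1]
                          · linarith only [q17_5, h_o2, s3, h_f33_7, q7_1]
                        · linarith only [h_a1, q3_0, h_f23_1, q0_0_1, h_o2, h_f33_4, q5_2, q2_0]
                    · rcases h_f23_3 with q5_0 | q5_1 | q5_2
                      · rcases h_p11_23B with q17_0 | q17_1 | q17_2 | q17_3 | q17_4 | q17_5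
                        · linarith only [q17_0, e0]
                        · linarith only [q17_1, h_o0, h_a2, e0]
                        · linarith only [q17_2, h_o0, h_a2, h_a4, e0, h_o2]
                        · linarith only [h_f33_0, h_a1, h_o0, s1, q5_0, q17_3]
                        · rcases h_tpmz with q12_0 | q12_1 | q12_2 | q12_3 | q12_4 | q12_5
                          · linarith only [q12_0, h_o0, e0]
                          · rcases h_tzmp with q16_0 | q16_1 | q16_2 | q16_3
                            · linarith only [q0_0_1, q16_0]
                            · linarith only [q16_1, h_f11_1, h_o0, h_f33_4, q17_4, q12_1, q6_1, s2, h_f11_0]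
                            · linarith only [h_f33_0, h_a1, h_f33_3, h_o0, q16_2, q17_4, s1, q5_0, q6_1, h_f11_1, s2, h_f23_1]
                            · linarith only [q16_3, h_f11_1, h_f11_2, h_o0, q17_4, h_o2, q12_1, s3, h_f33_7, q6_1, h_f11_0]
                          · linarith only [q12_2, h_f33_4, q17_4, q6_1, s2, h_o1]
                          · linarith only [q12_3, h_a1, h_o0]
                          · linarith only [h_f33_0, h_a1, h_f33_3, h_o0, q12_4, q17_4, s1, q5_0, q6_1, h_f11_1, s2, h_f23_1]
                          · linarith only [q12_5, h_f11_2, q17_4, h_o2, s3, h_f33_7, q6_1, h_o1]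
                        · linarith only [h_f33_7, h_o2, s3, q7_1, q17_5]
                      · rcases h_p11_23B with q17_0 | q17_1 | q17_2 | q17_3 | q17_4 | q17_5
                        · linarith only [q17_0, e0]
                        · linarith only [q17_1, h_o0, h_a2, e0]
                        · linarith only [q17_2, h_o0, h_a2, h_a4, e0, h_o2]
                        · rcases h_p22_33A with q19_0 | q19_1 | q19_2 | q19_3 | q19_4
                          · linarith only [q19_0, e0, q1_1_0]
                          · linarith only [q19_1, h_o1, e0, q1_1_0, h_a4]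
                          · linarith only [h_a2, q17_3, q19_2, q1_1_0, s1, q8_1, q5_1]
                          · linarith only [q3_1, q17_3, q19_3, q1_1_0, s1, h_f33_1, q9_1, q5_1]
                          · linarith only [q1_1_1, s3, q19_4, q10_4, h_f22_6, q9_1, q4_1]
                        · rcases h_tzpm with q11_0 | q11_1 | q11_2 | q11_3 | ⟨q11_4_0, q11_4_1⟩
                          · rcases h_tzmp with q16_0 | q16_1 | q16_2 | q16_3
                            · linarith only [q0_0_1, q16_0]
                            · rcases h_tpmz with q12_0 | q12_1 | q12_2 | q12_3 | q12_4 | q12_5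
                              · linarith only [q12_0, h_o0, e0]
                              · linarith only [q16_1, q1_1_0, h_f11_1, q11_0, h_f33_4, q17_4, q12_1, q6_1, s2, h_f11_0]
                              · linarith only [q12_2, h_a1, h_f33_1, q11_0, q2_0]
                              · linarith only [q12_3, h_a1, h_o0]
                              · linarith only [h_f33_4, h_f11_0, h_f33_1, q12_4, q17_4, s1, q6_1, s2, q16_1]
                              · linarith only [q12_5, h_f11_2, q17_4, h_o2, s3, h_f33_7, q6_1, h_o1]
                            · linarith only [h_f11_1, q0_0_1, h_f11_0, h_o0, q16_2, q17_4, q6_1, h_a2]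
                            · rcases h_tpmz with q12_0 | q12_1 | q12_2 | q12_3 | q12_4 | q12_5
                              · linarith only [q12_0, h_o0, e0]
                              · linarith only [q16_3, q1_1_0, h_f11_1, h_f11_2, q11_0, h_o2, q12_1, s3, h_f33_7, h_f11_0]
                              · linarith only [q12_2, h_a1, h_f33_1, q11_0, q2_0]
                              · linarith only [q12_3, h_a1, h_o0]
                              · rcases h_p22_33A with q19_0 | q19_1 | q19_2 | q19_3 | q19_4
                                · linarith only [q19_0, e0, q1_1_0]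
                                · linarith only [q19_1, h_o1, e0, q1_1_0, h_a4]
                                · linarith only [h_f11_2, q17_4, q12_4, q19_2, s3, q16_3, h_a2, q10_4, s1, q8_1, q6_1, h_f11_0]
                                · linarith only [h_f11_2, q16_3, q12_4, q3_1, s3, q19_3, q17_4, q10_4, s1, h_f33_1, q9_1, q6_1, h_f11_0]
                                · linarith only [h_f11_2, q17_4, h_f23_8, s3, q19_4, q10_4, h_f22_6, q9_1, q7_1, q4_1]
                              · linarith only [q12_5, h_f11_2, q17_4, h_o2, s3, h_f33_7, q6_1, h_o1]
                          · linarith only [q11_1, h_f11_2, q17_4, h_o2, s3, h_f33_7, q6_1, h_o1]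
                          · rcases h_tzmp with q16_0 | q16_1 | q16_2 | q16_3
                            · linarith only [q0_0_1, q16_0]
                            · linarith only [q6_1, h_f11_1, q16_1, h_f33_4, q17_4, h_f11_0, s2, q11_2]
                            · linarith only [q16_2, q1_1_0]
                            · linarith only [q16_3, h_f11_1, h_f11_2, h_o2, h_f33_7, s3, h_f11_0, q11_2]
                          · linarith only [q11_3, h_f33_4, q17_4, h_o2, q6_1, s2, h_o1]
                          · rcases h_tzmp with q16_0 | q16_1 | q16_2 | q16_3
                            · linarith only [q0_0_1, q16_0]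
                            · linarith only [q16_1, h_f33_4, q17_4, q6_1, s2, q11_4_0]
                            · linarith only [h_f11_1, q0_0_1, h_f11_0, h_o0, q16_2, q17_4, q6_1, h_a2]
                            · linarith only [q16_3, h_f11_2, q17_4, h_o2, s3, h_f33_7, q6_1, q11_4_0]
                        · linarith only [h_f33_7, h_o2, s3, q7_1, q17_5]
                      · linarith only [h_f23_0, h_f33_1, h_o2, q5_2, q2_0]
                  · rcases h_f33_5 with q3_0 | q3_1
                    · linarith only [h_b3, q3_0, h_f33_4, q2_1, q1_1_0]
                    · rcases h_f23_3 with q5_0 | q5_1 | q5_2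
                      · rcases h_p11_23B with q17_0 | q17_1 | q17_2 | q17_3 | q17_4 | q17_5
                        · linarith only [q17_0, e0]
                        · linarith only [q17_1, h_o0, h_a2, e0]
                        · linarith only [q17_2, h_o0, h_a2, h_a4, e0, h_o2]
                        · linarith only [h_f33_0, h_a1, h_o0, s1, q5_0, q17_3]
                        · linarith only [h_f23_1, q2_1, h_f33_0, h_f33_4, q17_4, q5_0, q6_1, s2, h_o1]
                        · linarith only [h_f33_7, h_o2, s3, q7_1, q17_5]
                      · rcases h_p11_23B with q17_0 | q17_1 | q17_2 | q17_3 | q17_4 | q17_5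
                        · linarith only [q17_0, e0]
                        · linarith only [q17_1, h_o0, h_a2, e0]
                        · linarith only [q17_2, h_o0, h_a2, h_a4, e0, h_o2]
                        · rcases h_p22_33A with q19_0 | q19_1 | q19_2 | q19_3 | q19_4
                          · linarith only [q19_0, e0, q1_1_0]
                          · linarith only [q19_1, h_o1, e0, q1_1_0, h_a4]
                          · linarith only [h_a2, q17_3, q19_2, q1_1_0, s1, q8_1, q5_1]
                          · linarith only [q3_1, q17_3, q19_3, q1_1_0, s1, h_f33_1, q9_1, q5_1]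
                          · linarith only [q1_1_1, s3, q19_4, q10_4, h_f22_6, q9_1, q4_1]
                        · rcases h_tzpm with q11_0 | q11_1 | q11_2 | q11_3 | ⟨q11_4_0, q11_4_1⟩
                          · rcases h_tzmp with q16_0 | q16_1 | q16_2 | q16_3
                            · linarith only [q0_0_1, q16_0]
                            · rcases h_tpmz with q12_0 | q12_1 | q12_2 | q12_3 | q12_4 | q12_5
                              · linarith only [q12_0, h_o0, e0]
                              · linarith only [h_f33_4, h_f11_1, q16_1, h_f33_1, q11_0, q17_4, s1, q6_1, h_f11_0, s2, q12_1]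
                              · linarith only [h_f33_4, q12_2, q17_4, q6_1, s2, h_o1]
                              · linarith only [q12_3, h_f33_0, s1, h_f11_0]
                              · linarith only [h_f33_4, h_f33_1, q12_4, q17_4, s1, q6_1, h_f11_0, s2, q16_1]
                              · linarith only [q12_5, h_f11_2, q17_4, h_o2, s3, h_f33_7, q6_1, h_o1]
                            · linarith only [q1_1_0, q16_2]
                            · rcases h_tpmz with q12_0 | q12_1 | q12_2 | q12_3 | q12_4 | q12_5
                              · linarith only [q12_0, h_o0, e0]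
                              · linarith only [q16_3, h_f11_1, h_f11_2, q1_1_0, q11_0, h_o2, s3, h_f33_7, h_f11_0, q12_1]
                              · linarith only [h_f33_4, q12_2, q17_4, q6_1, s2, h_o1]
                              · linarith only [q12_3, h_f33_0, s1, h_f11_0]
                              · rcases h_p22_33A with q19_0 | q19_1 | q19_2 | q19_3 | q19_4
                                · linarith only [q19_0, e0, q1_1_0]
                                · linarith only [q19_1, h_o1, e0, q1_1_0, h_a4]
                                · linarith only [h_f11_2, q16_3, q12_4, q19_2, s3, h_a2, q10_4, q17_4, s1, q8_1, q6_1, h_f11_0]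
                                · linarith only [h_f11_2, q16_3, q12_4, q3_1, s3, q19_3, q17_4, q10_4, s1, h_f33_1, q9_1, q6_1, h_f11_0]
                                · linarith only [h_f11_2, q17_4, h_f23_8, s3, q19_4, q10_4, h_f22_6, q9_1, q7_1, q4_1]
                              · linarith only [q12_5, h_f11_2, q17_4, h_o2, s3, h_f33_7, q6_1, h_o1]
                          · linarith only [q11_1, h_f11_2, q17_4, h_o2, s3, h_f33_7, q6_1, h_o1]
                          · rcases h_tzmp with q16_0 | q16_1 | q16_2 | q16_3
                            · linarith only [q0_0_1, q16_0]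
                            · linarith only [q16_1, h_f11_1, h_f33_4, q17_4, q6_1, h_f11_0, s2, q11_2]
                            · linarith only [q1_1_0, q16_2]
                            · linarith only [q16_3, h_f11_1, h_f11_2, h_o2, s3, h_f33_7, h_f11_0, q11_2]
                          · linarith only [q11_3, h_f33_4, q17_4, h_o2, q6_1, s2, h_o1]
                          · rcases h_tzmp with q16_0 | q16_1 | q16_2 | q16_3
                            · linarith only [q0_0_1, q16_0]
                            · linarith only [q16_1, h_f33_4, q17_4, q6_1, s2, q11_4_0]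
                            · linarith only [q1_1_0, q16_2]
                            · linarith only [q16_3, h_f11_2, q17_4, h_o2, s3, h_f33_7, q6_1, q11_4_0]
                        · linarith only [h_f33_7, h_o2, s3, q7_1, q17_5]
                      · linarith only [h_f23_1, h_a4, h_o2, q5_2]
              · rcases h_f22_2 with q8_0 | q8_1
                · rcases h_tzpm with q11_0 | q11_1 | q11_2 | q11_3 | ⟨q11_4_0, q11_4_1⟩
                  · linarith only [h_o1, h_a1, q11_0, q8_0, h_f22_1]
                  · linarith only [h_o1, q11_1, q1_1_1, h_o2]
                  · linarith only [q11_2, q0_1_1]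
                  · linarith only [h_o1, h_f11_2, q11_3, h_a4, q1_1_1, q10_4, h_f33_4, s2, q4_1]
                  · rcases h_f23_3 with q5_0 | q5_1 | q5_2
                    · rcases h_p11_23B with q17_0 | q17_1 | q17_2 | q17_3 | q17_4 | q17_5
                      · linarith only [q17_0, e0]
                      · linarith only [q17_1, h_a1, h_o0, q11_4_0, e0, q8_0, h_f22_1]
                      · linarith only [q17_2, h_o0, h_a2, h_a4, e0, h_o2]
                      · linarith only [h_f33_0, h_a1, h_o0, s1, q5_0, q17_3]
                      · linarith only [h_f11_1, h_f11_0, q11_4_0, q17_4, q0_1_1, q6_1]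
                      · linarith only [h_f33_7, h_o2, s3, q7_1, q17_5]
                    · linarith only [h_f23_0, q11_4_0, q8_0, q5_1, h_f22_1]
                    · linarith only [h_f23_0, q11_4_0, h_a4, h_o2, q8_0, q5_2, h_f22_1]
                · rcases h_f33_2 with q2_0 | q2_1
                  · rcases h_f33_5 with q3_0 | q3_1
                    · rcases h_f23_3 with q5_0 | q5_1 | q5_2
                      · rcases h_tzpm with q11_0 | q11_1 | q11_2 | q11_3 | ⟨q11_4_0, q11_4_1⟩
                        · linarith only [h_f23_1, h_a1, q11_0, q5_0]
                        · linarith only [h_o1, q1_1_1, h_o2, q11_1]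
                        · linarith only [q11_2, q0_1_1]
                        · linarith only [q11_3, h_a1, q0_1_1, h_o0, h_f33_4, h_o2, q3_0, q2_0]
                        · rcases h_p11_23B with q17_0 | q17_1 | q17_2 | q17_3 | q17_4 | q17_5
                          · linarith only [q17_0, e0]
                          · linarith only [q11_4_0, q17_1, e0, q1_1_0]
                          · linarith only [q17_2, h_o0, h_a2, h_a4, e0, h_o2]
                          · linarith only [h_f33_0, h_a1, h_o0, q17_3, s1, q5_0]
                          · linarith only [h_f11_1, h_f11_0, q11_4_0, q6_1, q17_4, q0_1_1]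
                          · linarith only [h_f33_7, h_o2, s3, q7_1, q17_5]
                      · rcases h_p11_23B with q17_0 | q17_1 | q17_2 | q17_3 | q17_4 | q17_5
                        · linarith only [q17_0, e0]
                        · linarith only [h_o1, q17_1, e0, q1_1_0]
                        · linarith only [q17_2, h_o0, h_a2, h_a4, e0, h_o2]
                        · rcases h_p22_33A with q19_0 | q19_1 | q19_2 | q19_3 | q19_4
                          · linarith only [q19_0, e0, q1_1_0]
                          · linarith only [q19_1, q0_1_1, e0, q1_1_0, s1, h_f33_4, q3_0, h_f11_0]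
                          · linarith only [q17_3, q19_2, h_a2, q1_1_0, s1, q8_1, q5_1]
                          · linarith only [q17_3, q0_1_1, q19_3, q1_1_0, s1, q9_1, q5_1, q3_0]
                          · linarith only [q1_1_1, q19_4, q10_4, s3, h_f22_6, q9_1, q4_1]
                        · rcases h_tzpm with q11_0 | q11_1 | q11_2 | q11_3 | ⟨q11_4_0, q11_4_1⟩
                          · rcases h_tpmz with q12_0 | q12_1 | q12_2 | q12_3 | q12_4 | q12_5
                            · linarith only [q12_0, h_o0, e0]
                            · linarith only [q0_1_1, q12_1, q11_0, q1_1_0]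
                            · linarith only [q6_1, h_a1, h_f11_1, q12_2, h_f11_0, q11_0, q17_4, h_f33_4, q3_0, s2, q2_0, q1_1_0]
                            · linarith only [h_f33_0, s1, h_f11_0, q12_3]
                            · rcases h_p22_33A with q19_0 | q19_1 | q19_2 | q19_3 | q19_4
                              · linarith only [q19_0, e0, q1_1_0]
                              · linarith only [q19_1, q0_1_1, e0, q1_1_0, s1, h_f33_4, q3_0, h_f11_0]
                              · linarith only [h_f11_1, q0_1_1, q19_2, q12_4, h_a2, q17_4, s1, q8_1, q6_1]
                              · linarith only [h_f11_1, q0_1_1, q17_4, q19_3, s1, q9_1, q6_1, q3_0]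
                              · linarith only [q1_1_1, q19_4, q10_4, s3, h_f22_6, q9_1, q4_1]
                            · linarith only [h_o1, h_f11_2, q17_4, h_o2, h_f33_7, s3, q12_5, q6_1]
                          · linarith only [h_o1, h_f11_2, q17_4, h_o2, h_f33_7, s3, h_f23_8, q7_1, q11_1]
                          · linarith only [q11_2, q0_1_1]
                          · linarith only [q11_3, h_a1, h_f11_1, h_o0, h_f11_0, h_o2, h_f33_4, q3_0, s2, q2_0]
                          · linarith only [h_f11_1, h_f11_0, q11_4_0, q6_1, q17_4, q0_1_1]
                        · linarith only [h_f33_7, h_o2, s3, q7_1, q17_5]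
                      · linarith only [h_f23_0, q0_1_1, h_f33_4, h_o2, q3_0, q5_2, q1_1_0, q2_0]
                    · rcases h_tzpm with q11_0 | q11_1 | q11_2 | q11_3 | ⟨q11_4_0, q11_4_1⟩
                      · rcases h_f23_3 with q5_0 | q5_1 | q5_2
                        · linarith only [h_f23_1, h_a1, q11_0, q5_0]
                        · rcases h_tpmz with q12_0 | q12_1 | q12_2 | q12_3 | q12_4 | q12_5
                          · linarith only [q12_0, h_o0, e0]
                          · linarith only [q12_1, q0_1_1, q11_0, q1_1_0]
                          · linarith only [q12_2, h_a1, h_f33_1, q11_0, q2_0]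
                          · linarith only [q12_3, h_a1, h_o0]
                          · rcases h_p11_23B with q17_0 | q17_1 | q17_2 | q17_3 | q17_4 | q17_5
                            · linarith only [q17_0, e0]
                            · linarith only [q17_1, h_o0, h_a2, e0]
                            · linarith only [q17_2, h_o0, h_a2, h_a4, e0, h_o2]
                            · rcases h_p22_33A with q19_0 | q19_1 | q19_2 | q19_3 | q19_4
                              · linarith only [q19_0, e0, q1_1_0]
                              · linarith only [q19_1, h_o1, e0, q1_1_0, h_a4]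
                              · linarith only [q17_3, q19_2, h_a2, q1_1_0, s1, q8_1, q5_1]
                              · linarith only [q17_3, q19_3, q1_1_0, s1, h_f33_1, q9_1, q5_1, q3_1]
                              · linarith only [q1_1_1, q19_4, q10_4, s3, h_f22_6, q9_1, q4_1]
                            · rcases h_p22_33A with q19_0 | q19_1 | q19_2 | q19_3 | q19_4
                              · linarith only [q19_0, e0, q1_1_0]
                              · linarith only [q19_1, h_o1, e0, q1_1_0, h_a4]
                              · linarith only [h_f11_1, q0_1_1, q19_2, q12_4, h_a2, q17_4, s1, q8_1, q6_1]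
                              · linarith only [h_f11_1, q0_1_1, q12_4, q19_3, q17_4, s1, h_f33_1, q9_1, q6_1, q3_1]
                              · linarith only [q1_1_1, q19_4, q10_4, s3, h_f22_6, q9_1, q4_1]
                            · linarith only [h_f33_7, h_o2, s3, q7_1, q17_5]
                          · linarith only [q12_5, q1_1_1]
                        · linarith only [h_f23_0, h_f33_1, h_o2, q5_2, q2_0]
                      · linarith only [h_o1, q1_1_1, h_o2, q11_1]
                      · linarith only [q11_2, q0_1_1]
                      · linarith only [h_f11_2, h_o1, h_a4, q1_1_1, q10_4, h_f33_4, s2, q11_3, q4_1]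
                      · rcases h_p11_23B with q17_0 | q17_1 | q17_2 | q17_3 | q17_4 | q17_5
                        · linarith only [q17_0, e0]
                        · linarith only [q17_1, h_o0, h_a2, e0]
                        · linarith only [q17_2, h_o0, h_a2, h_a4, e0, h_o2]
                        · rcases h_f23_3 with q5_0 | q5_1 | q5_2
                          · linarith only [h_f33_0, h_a1, h_o0, s1, q5_0, q17_3]
                          · linarith only [h_f11_0, q11_4_0, q17_3, q5_1, q1_1_0]
                          · linarith only [h_f33_1, q17_3, h_o0, h_a2, h_a4, h_o2, s1, q5_2]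
                        · linarith only [h_f11_1, q0_1_1, q17_4, h_f11_0, q6_1, q11_4_0]
                        · linarith only [h_f33_7, h_o2, s3, q7_1, q17_5]
                  · rcases h_f33_5 with q3_0 | q3_1
                    · linarith only [h_f33_4, q0_1_1, q3_0, q1_1_0, q2_1]
                    · rcases h_f23_3 with q5_0 | q5_1 | q5_2
                      · rcases h_tzpm with q11_0 | q11_1 | q11_2 | q11_3 | ⟨q11_4_0, q11_4_1⟩
                        · linarith only [h_a1, h_f23_1, q11_0, q5_0]
                        · linarith only [h_o1, q1_1_1, h_o2, q11_1]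
                        · linarith only [q11_2, q0_1_1]
                        · linarith only [h_f11_2, h_o1, h_a4, q1_1_1, q10_4, h_f33_4, s2, q11_3, q4_1]
                        · rcases h_p11_23B with q17_0 | q17_1 | q17_2 | q17_3 | q17_4 | q17_5
                          · linarith only [q17_0, e0]
                          · linarith only [q17_1, h_o0, h_a2, e0]
                          · linarith only [q17_2, h_o0, h_a2, h_a4, e0, h_o2]
                          · linarith only [h_f33_0, h_a1, h_o0, s1, q5_0, q17_3]
                          · linarith only [h_f23_1, q2_1, h_f33_0, h_f33_4, q17_4, q5_0, q6_1, s2, q11_4_0]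
                          · linarith only [h_f33_7, h_o2, s3, q7_1, q17_5]
                      · rcases h_tpmz with q12_0 | q12_1 | q12_2 | q12_3 | q12_4 | q12_5
                        · linarith only [q12_0, h_o0, e0]
                        · rcases h_p11_23B with q17_0 | q17_1 | q17_2 | q17_3 | q17_4 | q17_5
                          · linarith only [q17_0, e0]
                          · linarith only [q17_1, h_o0, h_a2, e0]
                          · linarith only [q17_2, h_o0, h_a2, h_a4, e0, h_o2]
                          · linarith only [h_f11_0, q0_1_1, h_o0, q17_3, q5_1, q1_1_0, q12_1]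
                          · linarith only [h_f11_1, h_f11_0, h_o0, q17_4, q6_1, q0_1_1, q12_1]
                          · linarith only [h_f33_7, h_o2, s3, q7_1, q17_5]
                        · rcases h_p11_23B with q17_0 | q17_1 | q17_2 | q17_3 | q17_4 | q17_5
                          · linarith only [q17_0, e0]
                          · linarith only [q17_1, h_o0, h_a2, e0]
                          · linarith only [q17_2, h_o0, h_a2, h_a4, e0, h_o2]
                          · linarith only [q12_2, h_f33_1, q17_3, s1, q5_1, h_f11_0]
                          · linarith only [q12_2, h_f33_4, q17_4, q6_1, s2, h_o1]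
                          · linarith only [h_f33_7, h_o2, s3, q7_1, q17_5]
                        · linarith only [q12_3, h_f33_0, s1, h_f11_0]
                        · rcases h_p11_23B with q17_0 | q17_1 | q17_2 | q17_3 | q17_4 | q17_5
                          · linarith only [q17_0, e0]
                          · linarith only [q17_1, h_o0, h_a2, e0]
                          · linarith only [q17_2, h_o0, h_a2, h_a4, e0, h_o2]
                          · rcases h_p22_33A with q19_0 | q19_1 | q19_2 | q19_3 | q19_4
                            · linarith only [q19_0, e0, q1_1_0]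
                            · linarith only [q19_1, h_o1, e0, q1_1_0, h_a4]
                            · linarith only [q17_3, q19_2, h_a2, q1_1_0, s1, q8_1, q5_1]
                            · linarith only [q17_3, q19_3, q1_1_0, s1, h_f33_1, q9_1, q5_1, q3_1]
                            · linarith only [q1_1_1, q19_4, q10_4, s3, h_f22_6, q9_1, q4_1]
                          · rcases h_p22_33A with q19_0 | q19_1 | q19_2 | q19_3 | q19_4
                            · linarith only [q19_0, e0, q1_1_0]
                            · linarith only [q19_1, h_o1, e0, q1_1_0, h_a4]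
                            · linarith only [h_f11_1, q0_1_1, q19_2, q12_4, h_a2, q17_4, s1, q8_1, q6_1]
                            · linarith only [h_f11_1, q0_1_1, q12_4, q19_3, q17_4, s1, h_f33_1, q9_1, q6_1, q3_1]
                            · linarith only [q1_1_1, q19_4, q10_4, s3, h_f22_6, q9_1, q4_1]
                          · linarith only [h_f33_7, h_o2, s3, q7_1, q17_5]
                        · linarith only [q12_5, q1_1_1]
                      · linarith only [h_f23_1, h_a4, h_o2, q5_2]
          · linarith only [h_f23_5, h_a4, h_o2, q6_2]

end Pool.Agent.Helper8.TQ
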