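import Pool.Agent.Helper89.TQ.Ctx

set_option autoImplicit false
set_option linter.all false
set_option maxRecDepth 10000

namespace Pool.Agent.Helper8.TQ

open Pool.Agent.Helper89.TQ

theorem c0_11_13_33_k2 {n1 n2 n3 A1 A2 A3 B1 B2 B3 m11_1 m11_2 m11_3 m13_1 m13_2 m13_3 m22_1 m22_2 m22_3 m23_1 m23_2 m23_3 m33_1 m33_2 m33_3 : ℤ}
    (C : Ctx0 n1 n2 n3 A1 A2 A3 B1 B2 B3 m11_1 m11_2 m11_3 m13_1 m13_2 m13_3 m22_1 m22_2 m22_3 m23_1 m23_2 m23_3 m33_1 m33_2 m33_3)
    (e0 : 0 < B1)
    (e1 : 0 < A1)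
    (e2 : 0 < B3)
    (e3 : 0 < A3)
    (s1 : 2 * A1 + 1 * B1 ≤ m11_1 + m13_1 + m33_1)
    (s2 : 2 * A2 + 1 * B2 ≤ m11_2 + m13_2 + m33_2)
    (s3 : 2 * A3 + 1 * B3 ≤ m11_3 + m13_3 + m33_3) : False := by
  have h_a3 := C.a3
  have h_a4 := C.a4
  have h_b2 := C.b2
  have h_b3 := C.b3
  have h_b5 := C.b5
  have h_o0 := C.o0
  have h_o1 := C.o1
  have h_o2 := C.o2
  have h_t12 : (0 < A1 ∧ A2 < A1 + n2) ∨ (0 < B1 ∧ B2 < B1 + n2) := by have h := C.t12; clear * - h; omega
  have h_f11_0 := C.f11_0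
  have h_f11_1 := C.f11_1
  have h_f11_2 := C.f11_2
  have h_f13_0 := C.f13_0
  have h_f13_1 := C.f13_1
  have h_f13_2 : m13_1 = A1 - 1 ∨ m13_1 = B3 - 1 := by have h := C.f13_2; clear * - h; omega
  have h_f13_3 := C.f13_3
  have h_f13_4 := C.f13_4
  have h_f13_5 : m13_2 = m13_1 + n2 ∨ m13_2 = B3 - 1 := by have h := C.f13_5; clear * - h; omega
  have h_f13_7 := C.f13_7
  have h_f13_8 : m13_3 = m13_2 + n3 ∨ m13_3 = B3 - 1 := by have h := C.f13_8; clear * - h; omega
  have h_f33_0 := C.f33_0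
  have h_f33_1 := C.f33_1
  have h_f33_4 := C.f33_4
  have h_f33_5 : m33_2 = m33_1 + n2 ∨ m33_2 = A3 - 1 := by have h := C.f33_5; clear * - h; omega
  have h_f33_7 := C.f33_7
  have h_f33_8 : m33_3 = m33_2 + n3 ∨ m33_3 = A3 - 1 := by have h := C.f33_8; clear * - h; omega
  have h_p11_33B : 0 ≥ B1 ∨ 0 ≥ A3 ∨ 2 * B1 > m11_1 + m33_1 ∨ 2 * B2 > m11_2 + m33_2 ∨ 2 * B3 > m11_3 + m33_3 := by have h := C.p11_33B; clear * - h; omega
  have h_p13_33A : 0 ≥ A1 ∨ 0 ≥ B3 ∨ 0 ≥ A3 ∨ 2 * A1 > m13_1 + m33_1 ∨ 2 * A2 > m13_2 + m33_2 ∨ 2 * A3 > m13_3 + m33_3 := by have h := C.p13_33A; clear * - h; omega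
  have h_p11_13B : 0 ≥ B1 ∨ 0 ≥ A1 ∨ 0 ≥ B3 ∨ 2 * B1 > m11_1 + m13_1 ∨ 2 * B2 > m11_2 + m13_2 ∨ 2 * B3 > m11_3 + m13_3 := by have h := C.p11_13B; clear * - h; omega
  have h_p11_33A : 0 ≥ B1 ∨ 0 ≥ A3 ∨ 2 * A1 > m11_1 + m33_1 ∨ 2 * A2 > m11_2 + m33_2 ∨ 2 * A3 > m11_3 + m33_3 := by have h := C.p11_33A; clear * - h; omega
  have h_tmpp : A1 + 1 > n1 ∨ A1 + 2 > A2 ∨ 1 > B1 ∨ B2 + 2 > B1 + n2 := by have h := C.tmpp; clear * - h; omega
  have h_tmzp : A1 + 1 > n1 ∨ A1 + 1 > A2 ∨ A2 + 1 > A3 ∨ 1 > B1 ∨ B2 + 1 > B1 + n2 ∨ B3 + 1 > B2 + n3 := by have h := C.tmzp; clear * - h; omega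
  clear C
  rcases h_f13_2 with q2_0 | q2_1
  · rcases h_f13_8 with q4_0 | q4_1
    · rcases h_f13_5 with q3_0 | q3_1
      · linarith only [q2_0, h_b5, h_o0, h_b3, q4_0, q3_0, h_f13_7]
      · linarith only [h_a4, h_b5, h_o2, h_o1, q4_0, q3_1, h_f13_7]
    · rcases h_f33_8 with q7_0 | q7_1
      · rcases h_f33_5 with q6_0 | q6_1
        · linarith only [q6_0, h_f33_7, h_o0, s3, h_f11_1, s1, h_f13_7, h_f11_0, q7_0, h_f11_2, h_f13_0]
        · linarith only [h_a4, h_f33_7, h_o2, q6_1, h_o1, q7_0, h_b5]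
      · rcases h_p11_13B with q10_0 | q10_1 | q10_2 | q10_3 | q10_4 | q10_5
        · linarith only [q10_0, e0]
        · linarith only [q10_1, h_o0, e0]
        · linarith only [h_o2, h_o0, e0, h_f13_1, s1, h_f11_0, h_f33_1, q10_2]
        · rcases h_p11_33A with q11_0 | q11_1 | q11_2 | q11_3 | q11_4
          · linarith only [q11_0, e0]
          · linarith only [q11_1, h_o0, e0, s1, h_f11_0, h_f33_1, h_f13_0]
          · linarith only [h_f11_0, s1, q11_2, q10_3]
          · rcases h_f33_5 with q6_0 | q6_1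
            · linarith only [h_f11_1, q6_0, h_a3, s1, q10_3, h_f11_0, q11_3]
            · rcases h_p11_33B with q8_0 | q8_1 | q8_2 | q8_3 | q8_4
              · linarith only [q8_0, e0]
              · linarith only [q8_1, h_o0, e0, s1, h_f11_0, h_f33_1, h_f13_0]
              · linarith only [q8_2, h_o0, s1, h_f13_0]
              · rcases h_p13_33A with q9_0 | q9_1 | q9_2 | q9_3 | q9_4 | q9_5
                · linarith only [q9_0, h_o0, e0]
                · linarith only [h_o2, h_o0, e0, h_f13_1, s1, h_f11_0, h_f33_1, q9_1]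
                · linarith only [q9_2, h_o0, e0, s1, h_f11_0, h_f33_1, h_f13_0]
                · linarith only [q9_3, s1, h_f11_0]
                · linarith only [q8_3, s2, h_a4, q9_4, q6_1, q11_3]
                · linarith only [h_f11_1, h_f13_4, h_f13_3, q6_1, q11_3, q10_3, s2, q9_5, q7_1, q8_3, q4_1, h_f11_0]
              · rcases h_p13_33A with q9_0 | q9_1 | q9_2 | q9_3 | q9_4 | q9_5
                · linarith only [q9_0, h_o0, e0]
                · linarith only [q8_4, h_o0, s3, e0, h_f13_1, s1, h_f11_0, h_f33_1, q9_1, h_f13_7]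
                · linarith only [q9_2, h_o0, e0, s1, h_f11_0, h_f33_1, h_f13_0]
                · linarith only [q9_3, s1, h_f11_0]
                · rcases h_tmpp with q12_0 | q12_1 | q12_2 | q12_3
                  · linarith only [q12_0, h_f33_0, s1, h_f11_0, h_f13_0]
                  · linarith only [q10_3, q12_1, h_b2, s2, s1, q9_4, h_f33_1, q6_1, q11_3]
                  · linarith only [q12_2, e0]
                  · linarith only [q9_4, q12_3, s2, h_f11_1, h_f11_0]
                · rcases h_tmpp with q12_0 | q12_1 | q12_2 | q12_3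
                  · linarith only [q12_0, h_f33_0, s1, h_f11_0, h_f13_0]
                  · rcases h_t12 with ⟨q0_0_0, q0_0_1⟩ | ⟨q0_1_0, q0_1_1⟩
                    · linarith only [h_f11_0, q0_0_1, q12_1, q11_3, s1, h_f11_1, q10_3, q6_1, h_f33_1]
                    · rcases h_tmzp with q13_0 | q13_1 | q13_2 | q13_3 | q13_4 | q13_5
                      · linarith only [q13_0, h_f33_0, s1, h_f11_0, h_f13_0]
                      · linarith only [q0_1_1, h_f11_1, q6_1, q11_3, s1, h_f11_0, q10_3, h_b2, q13_1, h_f33_1]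
                      · linarith only [q13_2, s1, h_f11_0, h_f13_0, q12_1, h_f33_1]
                      · linarith only [q13_3, e0]
                      · linarith only [h_f13_3, h_f11_0, s2, q11_3, q10_3, q13_4]
                      · linarith only [q10_3, h_f11_2, q12_1, q11_3, s3, q13_5, s1, q9_5, h_b2, q6_1, h_f33_1]
                  · linarith only [q12_2, e0]
                  · rcases h_tmzp with q13_0 | q13_1 | q13_2 | q13_3 | q13_4 | q13_5
                    · linarith only [q13_0, h_f33_0, s1, h_f11_0, h_f13_0]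
                    · linarith only [h_f11_0, h_f13_3, q13_1, q11_3, s2, s1, h_f11_1, q10_3, h_b2, q6_1, h_f33_1]
                    · linarith only [q7_1, h_f11_1, q13_2, h_f13_4, s2, h_f33_4, q9_5, h_f11_0, q12_3, q4_1]
                    · linarith only [q13_3, e0]
                    · linarith only [h_f11_0, h_f13_3, q13_4, q11_3, s2, q10_3]
                    · linarith only [q12_3, h_f11_1, h_f11_2, s3, q13_5, q9_5, h_f11_0]
          · linarith only [h_f13_7, s3, q11_4]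
        · rcases h_f13_5 with q3_0 | q3_1
          · rcases h_p11_33A with q11_0 | q11_1 | q11_2 | q11_3 | q11_4
            · linarith only [q11_0, e0]
            · linarith only [q11_1, h_o0, e0, s1, h_f11_0, h_f13_0, h_f33_1]
            · linarith only [h_f11_1, q3_0, q11_2, q10_4, s1, h_f11_0, h_b3]
            · linarith only [s2, q11_3, q10_4, h_f11_0, h_b3, h_f11_1]
            · linarith only [h_f13_7, s3, q11_4]
          · linarith only [h_f11_0, h_f11_1, q10_4, s2, h_o2, h_o1, h_b3, q3_1, h_f33_4]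
        · rcases h_p13_33A with q9_0 | q9_1 | q9_2 | q9_3 | q9_4 | q9_5
          · linarith only [q9_0, h_o0, e0]
          · linarith only [h_o2, h_o0, e0, h_f13_1, s1, h_f11_0, h_f33_1, q9_1]
          · linarith only [q9_2, h_o0, e0, s1, h_f11_0, h_f33_1, h_f13_0]
          · linarith only [q9_3, s1, h_f11_0]
          · linarith only [h_b5, q9_4, h_f11_2, q10_5, s2, q4_1]
          · linarith only [q10_5, s3, q9_5, q4_1]
  · linarith only [q2_1, h_o2, s1, h_f11_0, h_f33_1, h_f13_0]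

end Pool.Agent.Helper8.TQ
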