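import Pool.Agent.Helper89.TQ.Ctx

set_option autoImplicit false
set_option linter.all false
set_option maxRecDepth 10000

namespace Pool.Agent.Helper8.TQ

open Pool.Agent.Helper89.TQ

theorem c0_11_22_33_k3 {n1 n2 n3 A1 A2 A3 B1 B2 B3 m11_1 m11_2 m11_3 m13_1 m13_2 m13_3 m22_1 m22_2 m22_3 m23_1 m23_2 m23_3 m33_1 m33_2 m33_3 : ℤ}
    (C : Ctx0 n1 n2 n3 A1 A2 A3 B1 B2 B3 m11_1 m11_2 m11_3 m13_1 m13_2 m13_3 m22_1 m22_2 m22_3 m23_1 m23_2 m23_3 m33_1 m33_2 m33_3)
    (e0 : 0 < B1)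
    (e1 : 0 < B2)
    (e2 : 0 < A3)
    (s1 : 3 * A1 + 0 * B1 ≤ m11_1 + m22_1 + m33_1)
    (s2 : 3 * A2 + 0 * B2 ≤ m11_2 + m22_2 + m33_2)
    (s3 : 3 * A3 + 0 * B3 ≤ m11_3 + m22_3 + m33_3) : False := by
  have h_a4 := C.a4
  have h_b3 := C.b3
  have h_b4 := C.b4
  have h_b5 := C.b5
  have h_o0 := C.o0
  have h_o1 := C.o1
  have h_o2 := C.o2
  have h_f11_0 := C.f11_0
  have h_f11_1 := C.f11_1
  have h_f11_2 := C.f11_2
  have h_f22_0 := C.f22_0
  have h_f22_1 := C.f22_1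
  have h_f22_3 := C.f22_3
  have h_f22_4 := C.f22_4
  have h_f22_5 : m22_2 = m22_1 + n2 ∨ m22_2 = B2 - 1 := by have h := C.f22_5; clear * - h; omega
  have h_f22_6 := C.f22_6
  have h_f33_0 := C.f33_0
  have h_f33_1 := C.f33_1
  have h_f33_3 := C.f33_3
  have h_f33_4 := C.f33_4
  have h_f33_7 := C.f33_7
  have h_f33_8 : m33_3 = m33_2 + n3 ∨ m33_3 = A3 - 1 := by have h := C.f33_8; clear * - h; omega
  have h_f13_0 := C.f13_0
  have h_f13_2 : m13_1 = A1 - 1 ∨ m13_1 = B3 - 1 := by have h := C.f13_2; clear * - h; omega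
  have h_f13_4 := C.f13_4
  have h_f13_5 : m13_2 = m13_1 + n2 ∨ m13_2 = B3 - 1 := by have h := C.f13_5; clear * - h; omega
  have h_f13_7 := C.f13_7
  have h_f13_8 : m13_3 = m13_2 + n3 ∨ m13_3 = B3 - 1 := by have h := C.f13_8; clear * - h; omega
  have h_f23_1 := C.f23_1
  have h_f23_3 : m23_1 = n1 ∨ m23_1 = A2 - 1 ∨ m23_1 = B3 - 1 := by have h := C.f23_3; clear * - h; omega
  have h_f23_5 := C.f23_5
  have h_f23_7 : m23_2 = m23_1 + n2 ∨ m23_2 = A2 - 1 ∨ m23_2 = B3 - 1 := by have h := C.f23_7; clear * - h; omega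
  have h_f23_9 := C.f23_9
  have h_f23_10 : m23_3 = m23_2 + n3 ∨ m23_3 = B3 - 1 := by have h := C.f23_10; clear * - h; omega
  have h_p11_33A : 0 ≥ B1 ∨ 0 ≥ A3 ∨ 2 * A1 > m11_1 + m33_1 ∨ 2 * A2 > m11_2 + m33_2 ∨ 2 * A3 > m11_3 + m33_3 := by have h := C.p11_33A; clear * - h; omega
  have h_p11_22B : 0 ≥ B1 ∨ 0 ≥ B2 ∨ 2 * B1 > m11_1 + m22_1 ∨ 2 * B2 > m11_2 + m22_2 ∨ 2 * B3 > m11_3 + m22_3 := by have h := C.p11_22B; clear * - h; omega
  have h_p22_33A : 0 ≥ B2 ∨ 0 ≥ A3 ∨ 2 * A1 > m22_1 + m33_1 ∨ 2 * A2 > m22_2 + m33_2 ∨ 2 * A3 > m22_3 + m33_3 := by have h := C.p22_33A; clear * - h; omega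
  have h_p13_22A : 0 ≥ A1 ∨ 0 ≥ B3 ∨ 0 ≥ B2 ∨ 2 * A1 > m13_1 + m22_1 ∨ 2 * A2 > m13_2 + m22_2 ∨ 2 * A3 > m13_3 + m22_3 := by have h := C.p13_22A; clear * - h; omega
  have h_p13_23A : 0 ≥ A1 ∨ 0 ≥ B3 ∨ 0 ≥ A2 ∨ 2 * A1 > m13_1 + m23_1 ∨ 2 * A2 > m13_2 + m23_2 ∨ 2 * A3 > m13_3 + m23_3 := by have h := C.p13_23A; clear * - h; omega
  clear C
  rcases h_f13_2 with q7_0 | q7_1
  · rcases h_f13_8 with q9_0 | q9_1
    · rcases h_f13_5 with q8_0 | q8_1
      · linarith only [h_b3, h_o0, h_f13_7, h_b5, q8_0, q7_0, q9_0]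
      · linarith only [h_f13_7, h_o1, h_a4, h_o2, h_b5, q8_1, q9_0]
    · rcases h_p11_33A with q13_0 | q13_1 | q13_2 | q13_3 | q13_4
      · linarith only [q13_0, e0]
      · linarith only [h_f33_1, h_o0, h_o1, h_a4, e0, h_f22_1, s1, h_f11_0, q13_1]
      · rcases h_f22_5 with q3_0 | q3_1
        · linarith only [h_f33_3, h_f11_1, h_o1, q13_2, s1, s2, q3_0, h_f22_4]
        · rcases h_p13_22A with q16_0 | q16_1 | q16_2 | q16_3 | q16_4 | q16_5
          · linarith only [q16_0, h_o0, e0]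
          · linarith only [h_o2, h_o0, h_f33_1, e0, h_f22_1, h_b4, s1, h_f11_0, q16_1]
          · linarith only [q13_2, h_o0, e0, h_f22_1, s1, q16_2]
          · linarith only [q13_2, s1, q16_3, q7_0]
          · rcases h_f13_5 with q8_0 | q8_1
            · rcases h_f33_8 with q6_0 | q6_1
              · linarith only [h_f22_6, h_f11_1, q16_4, h_o0, h_f33_7, s2, q8_0, q7_0, h_f11_0, h_f11_2, s3, q6_0]
              · rcases h_f23_7 with q11_0 | q11_1 | q11_2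
                · rcases h_f23_3 with q10_0 | q10_1 | q10_2
                  · linarith only [h_f33_3, h_f33_0, h_f11_1, h_o0, h_f23_5, s2, q8_0, q7_0, h_f11_0, q11_0, q10_0, q16_4]
                  · linarith only [h_f23_5, h_o0, h_b3, q13_2, h_f22_1, s1, q11_0, q10_1]
                  · linarith only [h_o2, h_f11_1, h_o0, h_o1, h_f33_1, h_f22_1, s1, s2, h_f23_5, q8_0, q7_0, h_f11_0, q11_0, h_f22_3, q10_2, q16_4, h_f33_4]
                · rcases h_p13_23A with q17_0 | q17_1 | q17_2 | q17_3 | q17_4 | q17_5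
                  · linarith only [q17_0, h_o0, e0]
                  · linarith only [h_o2, h_f11_1, h_o0, h_o1, h_f33_1, e0, h_f22_1, s1, s2, q17_1, q8_0, q7_0, h_f11_0, h_f13_4, h_f22_4, h_f33_4]
                  · linarith only [q13_2, h_o0, h_o1, e0, h_f22_1, s1, q17_2]
                  · rcases h_f23_3 with q10_0 | q10_1 | q10_2
                    · linarith only [h_f22_0, h_f33_0, h_o0, s1, q7_0, h_f11_0, q10_0, q17_3]
                    · linarith only [h_b3, h_o0, q3_1, h_f22_1, q16_4, s1, q8_0, q7_0, q17_3, q10_1, q13_2]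
                    · linarith only [h_o2, h_f11_1, h_o0, h_o1, h_f23_1, s2, h_f33_4, q8_0, q7_0, h_f11_0, h_f13_4, q10_2, h_f22_4]
                  · rcases h_p22_33A with q15_0 | q15_1 | q15_2 | q15_3 | q15_4
                    · linarith only [q13_2, h_o0, e0, h_f22_1, s1, q15_0]
                    · linarith only [q16_4, h_f11_1, h_o0, h_o1, h_f33_1, e0, h_f22_1, s1, s2, q8_0, q7_0, h_f11_0, q15_1, h_f33_4]
                    · linarith only [q15_2, h_o0, s1, h_f11_0]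
                    · linarith only [q15_3, h_f11_1, h_o0, s2, q8_0, q7_0, h_f11_0, q17_4, q11_1]
                    · linarith only [h_f33_3, h_f11_1, s3, h_o0, q15_4, h_f11_2, s2, q6_1, q8_0, q7_0, h_f11_0, q17_4, h_f22_6, q11_1, q13_2]
                  · rcases h_f23_10 with q12_0 | q12_1
                    · linarith only [q17_5, h_f11_1, h_f33_7, h_o0, h_f23_9, q16_4, q8_0, q7_0, q9_1, h_f11_0, h_f11_2, q12_0, q11_1, s3, h_f22_6]
                    · linarith only [q17_5, h_o2, q9_1, q12_1]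
                · linarith only [h_o2, h_f11_1, h_o0, h_o1, h_f23_5, s2, h_f33_4, q8_0, q7_0, h_f11_0, h_f13_4, q11_2, h_f22_4]
            · rcases h_p11_22B with q14_0 | q14_1 | q14_2 | q14_3 | q14_4
              · linarith only [q14_0, e0]
              · linarith only [q13_2, h_o0, e0, h_f22_1, s1, q14_1]
              · linarith only [q13_2, h_f11_0, h_o0, s1, q14_2]
              · linarith only [h_o2, h_o1, s2, q16_4, q8_1, q3_1, q14_3, h_f33_4]
              · linarith only [q16_4, h_f11_2, h_o1, h_f33_7, s2, h_b5, q8_1, q14_4, q3_1, h_f22_6, s3, h_f33_4]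
          · linarith only [q16_5, h_o2, h_b5, q9_1, q3_1, h_f22_6]
      · linarith only [h_f22_4, h_o1, s2, q13_3]
      · rcases h_f33_8 with q6_0 | q6_1
        · linarith only [h_f22_6, h_f11_2, h_o1, q13_4, s2, s3, q6_0, h_f22_4]
        · linarith only [h_f22_6, h_f11_0, h_f11_2, q13_4, h_f22_4, h_b3, s3, h_f11_1, q6_1]
  · linarith only [h_o2, h_o0, h_f33_1, h_f22_1, h_b4, s1, q7_1, h_f11_0, h_f13_0]

end Pool.Agent.Helper8.TQ
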