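import Pool.Agent.Helper89.TQ.Ctx

set_option autoImplicit false
set_option linter.all false
set_option maxRecDepth 10000

namespace Pool.Agent.Helper8.TQ

open Pool.Agent.Helper89.TQ

theorem c0_11_33_33_k2 {n1 n2 n3 A1 A2 A3 B1 B2 B3 m11_1 m11_2 m11_3 m13_1 m13_2 m13_3 m22_1 m22_2 m22_3 m23_1 m23_2 m23_3 m33_1 m33_2 m33_3 : ℤ}
    (C : Ctx0 n1 n2 n3 A1 A2 A3 B1 B2 B3 m11_1 m11_2 m11_3 m13_1 m13_2 m13_3 m22_1 m22_2 m22_3 m23_1 m23_2 m23_3 m33_1 m33_2 m33_3)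
    (e0 : 0 < B1)
    (e1 : 0 < A3)
    (s1 : 2 * A1 + 1 * B1 ≤ m11_1 + m33_1 + m33_1)
    (s2 : 2 * A2 + 1 * B2 ≤ m11_2 + m33_2 + m33_2)
    (s3 : 2 * A3 + 1 * B3 ≤ m11_3 + m33_3 + m33_3) : False := by
  have h_a3 := C.a3
  have h_a4 := C.a4
  have h_b2 := C.b2
  have h_b3 := C.b3
  have h_b5 := C.b5
  have h_o0 := C.o0
  have h_o1 := C.o1
  have h_o2 := C.o2
  have h_f11_0 := C.f11_0
  have h_f11_1 := C.f11_1
  have h_f11_2 := C.f11_2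
  have h_f33_1 := C.f33_1
  have h_f33_3 := C.f33_3
  have h_f33_4 := C.f33_4
  have h_f33_6 := C.f33_6
  have h_f33_7 := C.f33_7
  have h_f13_0 := C.f13_0
  have h_f13_2 : m13_1 = A1 - 1 ∨ m13_1 = B3 - 1 := by have h := C.f13_2; clear * - h; omega
  have h_f13_4 := C.f13_4
  have h_f13_5 : m13_2 = m13_1 + n2 ∨ m13_2 = B3 - 1 := by have h := C.f13_5; clear * - h; omega
  have h_f13_7 := C.f13_7
  have h_f13_8 : m13_3 = m13_2 + n3 ∨ m13_3 = B3 - 1 := by have h := C.f13_8; clear * - h; omega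
  have h_p11_33B : 0 ≥ B1 ∨ 0 ≥ A3 ∨ 2 * B1 > m11_1 + m33_1 ∨ 2 * B2 > m11_2 + m33_2 ∨ 2 * B3 > m11_3 + m33_3 := by have h := C.p11_33B; clear * - h; omega
  have h_tzpm : A1 + 1 > A2 ∨ A3 + 2 > A2 + n3 ∨ B2 + 1 > B1 + n2 ∨ B2 + 2 > B3 ∨ (A2 ≥ B2 + 1 ∧ A3 ≥ B3 - 1) := by have h := C.tzpm; clear * - h; omega
  have h_p13_33A : 0 ≥ A1 ∨ 0 ≥ B3 ∨ 0 ≥ A3 ∨ 2 * A1 > m13_1 + m33_1 ∨ 2 * A2 > m13_2 + m33_2 ∨ 2 * A3 > m13_3 + m33_3 := by have h := C.p13_33A; clear * - h; omega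
  clear C
  rcases h_f13_2 with q5_0 | q5_1
  · rcases h_p11_33B with q8_0 | q8_1 | q8_2 | q8_3 | q8_4
    · linarith only [q8_0, e0]
    · linarith only [q8_1, h_o0, h_f33_1, e0, s1, h_f11_0]
    · linarith only [h_f11_0, h_o0, s1, q8_2]
    · linarith only [h_f11_1, h_f11_0, s2, q8_3, h_b3, h_o1]
    · rcases h_f13_8 with q7_0 | q7_1
      · rcases h_f13_5 with q6_0 | q6_1
        · linarith only [h_f33_7, h_f11_1, h_f11_2, h_o0, s3, q7_0, q6_0, q5_0, h_f11_0, h_f13_7]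
        · linarith only [h_f11_2, h_f33_4, h_o1, h_b5, s3, q7_0, q8_4, s2, q6_1, h_f13_7]
      · rcases h_p13_33A with q13_0 | q13_1 | q13_2 | q13_3 | q13_4 | q13_5
        · linarith only [q13_0, h_o0, e0]
        · linarith only [h_f11_2, h_f11_1, h_f33_3, h_o0, h_f33_1, e0, s3, s1, h_f33_6, q8_4, h_f11_0, q13_1]
        · linarith only [q13_2, h_o0, h_f33_1, e0, s1, h_f11_0]
        · linarith only [q13_3, s1, q5_0, h_f11_0]
        · rcases h_f13_5 with q6_0 | q6_1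
          · rcases h_tzpm with q9_0 | q9_1 | q9_2 | q9_3 | ⟨q9_4_0, q9_4_1⟩
            · linarith only [q9_0, q6_0, q13_4, h_b2, h_f11_1, s2, q5_0, h_a3, h_f11_0]
            · linarith only [h_f11_2, h_f11_1, s2, h_o0, q9_1, h_b5, s3, q13_4, q8_4, q6_0, q5_0, h_f11_0, h_f33_7]
            · linarith only [q9_2, q6_0, q13_4, h_f11_1, s2, q5_0, h_a3, h_f11_0]
            · linarith only [h_f11_2, h_f11_1, h_f33_6, h_o0, s2, q9_3, s3, h_o1, q8_4, q6_0, q5_0, h_f11_0, h_f13_4, h_f33_4]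
            · linarith only [h_f33_7, s3, q8_4, q9_4_1]
          · linarith only [h_f11_2, h_a4, q13_4, s2, s3, q8_4, q6_1, h_b5]
        · linarith only [q13_5, s3, q8_4, q7_1]
  · linarith only [h_f13_0, h_f33_1, s1, h_o2, q5_1, h_f11_0]

end Pool.Agent.Helper8.TQ
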