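import Pool.Agent.Helper89.TQ.Ctx

set_option autoImplicit false
set_option linter.all false
set_option maxRecDepth 10000

namespace Pool.Agent.Helper8.TQ

open Pool.Agent.Helper89.TQ

theorem c0_11_33_33_k3 {n1 n2 n3 A1 A2 A3 B1 B2 B3 m11_1 m11_2 m11_3 m13_1 m13_2 m13_3 m22_1 m22_2 m22_3 m23_1 m23_2 m23_3 m33_1 m33_2 m33_3 : ℤ}
    (C : Ctx0 n1 n2 n3 A1 A2 A3 B1 B2 B3 m11_1 m11_2 m11_3 m13_1 m13_2 m13_3 m22_1 m22_2 m22_3 m23_1 m23_2 m23_3 m33_1 m33_2 m33_3)
    (e0 : 0 < B1)
    (e1 : 0 < A3)
    (s1 : 3 * A1 + 0 * B1 ≤ m11_1 + m33_1 + m33_1)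
    (s2 : 3 * A2 + 0 * B2 ≤ m11_2 + m33_2 + m33_2)
    (s3 : 3 * A3 + 0 * B3 ≤ m11_3 + m33_3 + m33_3) : False := by
  have h_a2 := C.a2
  have h_a3 := C.a3
  have h_b2 := C.b2
  have h_b3 := C.b3
  have h_b5 := C.b5
  have h_o0 := C.o0
  have h_o1 := C.o1
  have h_o2 := C.o2
  have h_t12 : (0 < A1 ∧ A2 < A1 + n2) ∨ (0 < B1 ∧ B2 < B1 + n2) := by have h := C.t12; clear * - h; omega
  have h_t23 : (A1 < A2 ∧ A3 < A2 + n3) ∨ (B1 < B2 ∧ B3 < B2 + n3) := by have h := C.t23; clear * - h; omega
  have h_f11_0 := C.f11_0
  have h_f11_1 := C.f11_1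
  have h_f11_2 := C.f11_2
  have h_f33_0 := C.f33_0
  have h_f33_1 := C.f33_1
  have h_f33_3 := C.f33_3
  have h_f33_4 := C.f33_4
  have h_f33_5 : m33_2 = m33_1 + n2 ∨ m33_2 = A3 - 1 := by have h := C.f33_5; clear * - h; omega
  have h_f33_6 := C.f33_6
  have h_f33_7 := C.f33_7
  have h_f33_8 : m33_3 = m33_2 + n3 ∨ m33_3 = A3 - 1 := by have h := C.f33_8; clear * - h; omega
  have h_f13_0 := C.f13_0
  have h_f13_2 : m13_1 = A1 - 1 ∨ m13_1 = B3 - 1 := by have h := C.f13_2; clear * - h; omega
  have h_f13_3 := C.f13_3
  have h_f13_4 := C.f13_4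
  have h_f13_5 : m13_2 = m13_1 + n2 ∨ m13_2 = B3 - 1 := by have h := C.f13_5; clear * - h; omega
  have h_f13_7 := C.f13_7
  have h_f13_8 : m13_3 = m13_2 + n3 ∨ m13_3 = B3 - 1 := by have h := C.f13_8; clear * - h; omega
  have h_f22_1 := C.f22_1
  have h_f22_2 : m22_1 = n1 ∨ m22_1 = B2 - 1 := by have h := C.f22_2; clear * - h; omega
  have h_f22_4 := C.f22_4
  have h_f22_5 : m22_2 = m22_1 + n2 ∨ m22_2 = B2 - 1 := by have h := C.f22_5; clear * - h; omega
  have h_f22_6 := C.f22_6
  have h_f23_3 : m23_1 = n1 ∨ m23_1 = A2 - 1 ∨ m23_1 = B3 - 1 := by have h := C.f23_3; clear * - h; omega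
  have h_f23_5 := C.f23_5
  have h_f23_7 : m23_2 = m23_1 + n2 ∨ m23_2 = A2 - 1 ∨ m23_2 = B3 - 1 := by have h := C.f23_7; clear * - h; omega
  have h_f23_9 := C.f23_9
  have h_f23_10 : m23_3 = m23_2 + n3 ∨ m23_3 = B3 - 1 := by have h := C.f23_10; clear * - h; omega
  have h_p11_33B : 0 ≥ B1 ∨ 0 ≥ A3 ∨ 2 * B1 > m11_1 + m33_1 ∨ 2 * B2 > m11_2 + m33_2 ∨ 2 * B3 > m11_3 + m33_3 := by have h := C.p11_33B; clear * - h; omega
  have h_p11_33A : 0 ≥ B1 ∨ 0 ≥ A3 ∨ 2 * A1 > m11_1 + m33_1 ∨ 2 * A2 > m11_2 + m33_2 ∨ 2 * A3 > m11_3 + m33_3 := by have h := C.p11_33A; clear * - h; omega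
  have h_tzpm : A1 + 1 > A2 ∨ A3 + 2 > A2 + n3 ∨ B2 + 1 > B1 + n2 ∨ B2 + 2 > B3 ∨ (A2 ≥ B2 + 1 ∧ A3 ≥ B3 - 1) := by have h := C.tzpm; clear * - h; omega
  have h_tpmz : 1 > A1 ∨ A2 + 2 > A1 + n2 ∨ A2 + 1 > A3 ∨ B1 + 1 > n1 ∨ B1 + 2 > B2 ∨ B3 + 1 > B2 + n3 := by have h := C.tpmz; clear * - h; omega
  have h_tpzm : 1 > A1 ∨ A2 + 1 > A1 + n2 ∨ A3 + 1 > A2 + n3 ∨ B1 + 1 > n1 ∨ B1 + 1 > B2 ∨ B2 + 1 > B3 ∨ A3 ≥ B3 - 1 ∨ (B1 + 1 ≥ A1 ∧ B2 ≥ A2) := by have h := C.tpzm; clear * - h; omega
  have h_tmpp : A1 + 1 > n1 ∨ A1 + 2 > A2 ∨ 1 > B1 ∨ B2 + 2 > B1 + n2 := by have h := C.tmpp; clear * - h; omega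
  have h_tzmp : A2 + 1 > A1 + n2 ∨ A2 + 2 > A3 ∨ B1 + 1 > B2 ∨ B3 + 2 > B2 + n3 := by have h := C.tzmp; clear * - h; omega
  have h_tmzp : A1 + 1 > n1 ∨ A1 + 1 > A2 ∨ A2 + 1 > A3 ∨ 1 > B1 ∨ B2 + 1 > B1 + n2 ∨ B3 + 1 > B2 + n3 := by have h := C.tmzp; clear * - h; omega
  have h_p11_13B : 0 ≥ B1 ∨ 0 ≥ A1 ∨ 0 ≥ B3 ∨ 2 * B1 > m11_1 + m13_1 ∨ 2 * B2 > m11_2 + m13_2 ∨ 2 * B3 > m11_3 + m13_3 := by have h := C.p11_13B; clear * - h; omega
  have h_p22_33A : 0 ≥ B2 ∨ 0 ≥ A3 ∨ 2 * A1 > m22_1 + m33_1 ∨ 2 * A2 > m22_2 + m33_2 ∨ 2 * A3 > m22_3 + m33_3 := by have h := C.p22_33A; clear * - h; omega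
  have h_p11_22B : 0 ≥ B1 ∨ 0 ≥ B2 ∨ 2 * B1 > m11_1 + m22_1 ∨ 2 * B2 > m11_2 + m22_2 ∨ 2 * B3 > m11_3 + m22_3 := by have h := C.p11_22B; clear * - h; omega
  have h_p11_23B : 0 ≥ B1 ∨ 0 ≥ A2 ∨ 0 ≥ B3 ∨ 2 * B1 > m11_1 + m23_1 ∨ 2 * B2 > m11_2 + m23_2 ∨ 2 * B3 > m11_3 + m23_3 := by have h := C.p11_23B; clear * - h; omega
  clear C
  rcases h_f13_2 with q5_0 | q5_1
  · rcases h_p11_33B with q13_0 | q13_1 | q13_2 | q13_3 | q13_4
    · linarith only [q13_0, e0]
    · linarith only [q13_1, h_o0, h_f33_1, e0, s1, h_f11_0]
    · linarith only [h_f11_0, h_o0, s1, q13_2]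
    · linarith only [h_f11_1, h_f11_0, h_o1, q13_3, s2, h_b3]
    · rcases h_f33_8 with q4_0 | q4_1
      · linarith only [h_f11_2, h_f33_7, h_o1, h_b5, q13_4, s3, s2, q4_0]
      · rcases h_f13_8 with q7_0 | q7_1
        · rcases h_f13_5 with q6_0 | q6_1
          · linarith only [h_b3, h_o0, h_b5, q6_0, q5_0, q7_0, h_f13_7]
          · linarith only [h_f11_2, h_f33_4, h_o1, h_b5, q13_4, s3, q6_1, q7_0, s2, h_f13_7, q4_1]
        · rcases h_f22_2 with q8_0 | q8_1
          · rcases h_f22_5 with q9_0 | q9_1
            · linarith only [h_f22_4, q8_0, h_o0, s1, q9_0, h_b3, h_f33_0, h_f11_0]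
            · rcases h_tmpp with q18_0 | q18_1 | q18_2 | q18_3
              · linarith only [q18_0, h_f33_0, h_o0, s1, h_f11_0]
              · linarith only [q18_1, h_f33_0, h_o0, h_o1, s1, q8_0, h_f11_0, h_f22_1]
              · linarith only [q18_2, e0]
              · rcases h_p22_33A with q22_0 | q22_1 | q22_2 | q22_3 | q22_4
                · linarith only [q22_0, h_f33_0, h_o0, e0, s1, q8_0, h_f11_0, h_f22_1]
                · linarith only [q22_1, h_o0, h_f33_1, e0, s1, h_f11_0]
                · linarith only [q22_2, h_f33_0, h_o0, s1, q8_0, h_f11_0]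
                · rcases h_tzmp with q19_0 | q19_1 | q19_2 | q19_3
                  · rcases h_t12 with ⟨q0_0_0, q0_0_1⟩ | ⟨q0_1_0, q0_1_1⟩
                    · linarith only [q0_0_1, q19_0]
                    · rcases h_tzpm with q15_0 | q15_1 | q15_2 | q15_3 | ⟨q15_4_0, q15_4_1⟩
                      · linarith only [q15_0, h_f33_0, h_o0, q19_0, s1, q8_0, h_f22_1, h_f11_0, q0_1_1]
                      · linarith only [h_f33_7, h_f11_1, h_f11_2, h_o0, q19_0, s3, h_f11_0, q15_1]
                      · linarith only [q15_2, q0_1_1]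
                      · linarith only [h_f11_2, h_f11_1, h_f33_6, h_o0, q19_0, q13_4, s3, s2, q15_3, h_f11_0, q0_1_1, h_f33_4]
                      · rcases h_tmzp with q20_0 | q20_1 | q20_2 | q20_3 | q20_4 | q20_5
                        · linarith only [q20_0, h_f33_0, h_o0, s1, h_f11_0]
                        · linarith only [q20_1, h_f33_0, h_o0, q19_0, s1, q8_0, h_f22_1, h_f11_0, q0_1_1]
                        · linarith only [h_f33_4, h_f11_1, h_o0, q19_0, s2, h_f11_0, q20_2]
                        · linarith only [q20_3, e0]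
                        · linarith only [q20_4, q0_1_1]
                        · linarith only [q15_4_1, h_f11_1, h_f11_2, h_f33_7, q18_3, s3, h_f11_0, q20_5]
                  · rcases h_tzpm with q15_0 | q15_1 | q15_2 | q15_3 | ⟨q15_4_0, q15_4_1⟩
                    · linarith only [q15_0, h_f33_0, h_o0, h_o1, s1, q8_0, h_f11_0, h_f22_1]
                    · linarith only [h_f33_7, h_f11_1, h_f11_2, h_o1, q18_3, s3, h_f11_0, q15_1]
                    · linarith only [h_f33_4, h_f11_1, h_o1, q15_2, s2, h_f11_0, q19_1]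
                    · linarith only [h_f11_2, h_f11_1, h_f33_6, h_o1, q18_3, q13_4, s3, s2, h_f11_0, q15_3, h_f33_4]
                    · linarith only [h_f33_4, h_f11_1, q15_4_0, q18_3, s2, h_f11_0, q19_1]
                  · linarith only [q19_2, h_f33_0, h_o0, s1, q8_0, h_f11_0, h_f22_1]
                  · rcases h_tpzm with q17_0 | q17_1 | q17_2 | q17_3 | q17_4 | q17_5 | q17_6 | ⟨q17_7_0, q17_7_1⟩
                    · linarith only [q17_0, h_o0, e0]
                    · rcases h_t12 with ⟨q0_0_0, q0_0_1⟩ | ⟨q0_1_0, q0_1_1⟩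
                      · linarith only [q0_0_1, q17_1]
                      · rcases h_tzpm with q15_0 | q15_1 | q15_2 | q15_3 | ⟨q15_4_0, q15_4_1⟩
                        · linarith only [q15_0, h_f33_0, h_o0, q17_1, q0_1_1, s1, q8_0, h_f22_1, h_f11_0]
                        · linarith only [h_f33_7, h_f11_1, h_f11_2, h_o0, q17_1, s3, h_f11_0, q15_1]
                        · linarith only [q15_2, q0_1_1]
                        · linarith only [h_f33_6, h_f11_1, q0_1_1, h_o0, q17_1, q13_4, s3, s2, q15_3, h_f11_0, h_f11_2, h_f33_4]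
                        · rcases h_tmzp with q20_0 | q20_1 | q20_2 | q20_3 | q20_4 | q20_5
                          · linarith only [q20_0, h_f33_0, h_o0, s1, h_f11_0]
                          · linarith only [q20_1, h_f33_0, h_o0, q17_1, q0_1_1, s1, q8_0, h_f22_1, h_f11_0]
                          · linarith only [q20_2, h_f11_1, h_o0, q17_1, s2, h_f11_0, h_f33_4]
                          · linarith only [q20_3, e0]
                          · linarith only [q20_4, q0_1_1]
                          · linarith only [q15_4_1, h_f11_1, h_f11_2, h_f33_7, q18_3, s3, h_f11_0, q20_5]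
                    · linarith only [h_f33_7, h_f11_1, h_f11_2, h_o1, q18_3, s3, h_f11_0, q17_2]
                    · linarith only [q17_3, h_f33_0, h_o0, s1, h_f11_0]
                    · linarith only [q17_4, h_f33_0, h_o0, s1, q8_0, h_f11_0, h_f22_1]
                    · linarith only [h_f33_6, h_f11_1, h_f33_4, h_o1, q18_3, q13_4, s3, s2, h_f11_0, q17_5, h_f11_2]
                    · rcases h_tzpm with q15_0 | q15_1 | q15_2 | q15_3 | ⟨q15_4_0, q15_4_1⟩
                      · linarith only [q15_0, h_f33_0, h_o0, h_o1, s1, q8_0, h_f11_0, h_f22_1]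
                      · linarith only [h_f33_7, h_f11_1, h_f11_2, h_o1, q18_3, s3, h_f11_0, q15_1]
                      · linarith only [q17_6, h_f11_1, h_f11_2, q15_2, h_f33_7, s3, h_f11_0, q19_3]
                      · linarith only [h_f33_6, h_f11_1, h_f33_4, h_o1, q18_3, q13_4, s3, s2, h_f11_0, q15_3, h_f11_2]
                      · rcases h_tpmz with q16_0 | q16_1 | q16_2 | q16_3 | q16_4 | q16_5
                        · linarith only [q16_0, h_o0, e0]
                        · rcases h_tmzp with q20_0 | q20_1 | q20_2 | q20_3 | q20_4 | q20_5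
                          · linarith only [q20_0, h_f33_0, h_o0, s1, h_f11_0]
                          · linarith only [q15_4_0, h_f33_0, h_o0, s1, q8_0, h_f22_1, h_f11_0, q20_1]
                          · linarith only [q20_2, h_f11_1, h_o0, q16_1, h_f33_4, s2, h_f11_0]
                          · linarith only [q20_3, e0]
                          · linarith only [q17_6, h_f11_1, h_f11_2, h_f33_7, s3, h_f11_0, q19_3, q20_4]
                          · linarith only [q17_6, h_f11_1, h_f11_2, h_f33_7, s3, h_f11_0, q20_5, q18_3]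
                        · linarith only [h_f33_4, h_f11_1, q15_4_0, q18_3, s2, h_f11_0, q16_2]
                        · linarith only [q16_3, h_f33_0, h_o0, s1, h_f11_0]
                        · linarith only [q16_4, h_f33_0, h_o0, s1, q8_0, h_f11_0, h_f22_1]
                        · linarith only [q17_6, h_f11_1, h_f11_2, q18_3, h_f33_7, s3, h_f11_0, q16_5]
                    · rcases h_tzpm with q15_0 | q15_1 | q15_2 | q15_3 | ⟨q15_4_0, q15_4_1⟩
                      · linarith only [q15_0, h_f33_0, h_o0, h_o1, s1, q8_0, h_f11_0, h_f22_1]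
                      · linarith only [h_f33_7, h_f11_1, h_f11_2, h_o1, q18_3, s3, h_f11_0, q15_1]
                      · linarith only [q17_7_1, h_f11_1, q22_3, q15_2, s2, q9_1, h_f11_0]
                      · linarith only [h_f33_6, h_f11_1, h_f33_4, h_o1, q18_3, q13_4, s3, s2, h_f11_0, q15_3, h_f11_2]
                      · linarith only [q17_7_1, q15_4_0]
                · linarith only [h_f33_7, h_f11_1, h_f11_2, q18_3, h_f22_6, s3, q9_1, h_f11_0, q22_4]
          · rcases h_f22_5 with q9_0 | q9_1
            · rcases h_t12 with ⟨q0_0_0, q0_0_1⟩ | ⟨q0_1_0, q0_1_1⟩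
              · linarith only [q0_0_1, h_a2, q8_1, q9_0, h_f22_4]
              · linarith only [q0_1_1, q8_1, q9_0, h_b2, h_f22_4]
            · rcases h_t23 with ⟨q1_0_0, q1_0_1⟩ | ⟨q1_1_0, q1_1_1⟩
              · rcases h_f23_7 with q11_0 | q11_1 | q11_2
                · rcases h_f23_3 with q10_0 | q10_1 | q10_2
                  · linarith only [h_f33_3, h_f33_0, h_f11_1, h_o0, s1, q11_0, s2, q10_0, h_f11_0, h_f23_5]
                  · linarith only [h_a3, q1_0_0, q11_0, q10_1, h_f23_5]
                  · linarith only [h_f11_2, h_f11_1, h_f33_6, h_o0, h_f33_1, q13_4, s1, s3, q11_0, q10_2, s2, h_f11_0, h_f23_5, h_f33_3]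
                · rcases h_tzpm with q15_0 | q15_1 | q15_2 | q15_3 | ⟨q15_4_0, q15_4_1⟩
                  · linarith only [q15_0, q1_0_0]
                  · rcases h_p11_33A with q14_0 | q14_1 | q14_2 | q14_3 | q14_4
                    · linarith only [q14_0, e0]
                    · linarith only [q14_1, h_o0, h_f33_1, e0, s1, h_f11_0]
                    · rcases h_p11_22B with q23_0 | q23_1 | q23_2 | q23_3 | q23_4
                      · linarith only [q23_0, e0]
                      · linarith only [h_f11_2, h_f11_0, h_f11_1, h_o0, q23_1, e0, h_b5, q13_4, h_f33_3, s3, s2, q14_2, q1_0_0, q15_1]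
                      · linarith only [h_f33_7, h_o0, q23_2, h_b5, q13_4, s3, q8_1, q15_1, q1_0_0, h_f11_0]
                      · linarith only [h_f33_7, h_f11_2, h_o1, q23_3, s3, q9_1, q15_1]
                      · linarith only [q15_1, h_o1, h_b5, h_f33_7, h_f22_6, s3, q9_1, q23_4]
                    · linarith only [h_f33_7, h_f11_2, q14_3, s3, s2, q15_1]
                    · linarith only [h_f33_7, s3, q14_4]
                  · rcases h_t12 with ⟨q0_0_0, q0_0_1⟩ | ⟨q0_1_0, q0_1_1⟩
                    · rcases h_tzmp with q19_0 | q19_1 | q19_2 | q19_3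
                      · linarith only [q0_0_1, q19_0]
                      · linarith only [q19_1, h_f11_1, h_o1, q15_2, h_f33_4, s2, h_f11_0]
                      · linarith only [q0_0_1, q19_2, q15_2, q1_0_0]
                      · rcases h_tpzm with q17_0 | q17_1 | q17_2 | q17_3 | q17_4 | q17_5 | q17_6 | ⟨q17_7_0, q17_7_1⟩
                        · linarith only [q17_0, h_o0, e0]
                        · linarith only [q0_0_1, q17_1]
                        · linarith only [h_f33_7, h_f11_1, h_f11_2, h_o1, q15_2, s3, h_f11_0, q17_2]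
                        · linarith only [q17_3, h_f33_0, h_o0, s1, h_f11_0]
                        · linarith only [q0_0_1, q17_4, q15_2, q1_0_0]
                        · linarith only [h_f33_6, h_f11_1, h_f33_4, h_o1, q15_2, q13_4, s3, s2, h_f11_0, q17_5, h_f11_2]
                        · linarith only [q17_6, h_f11_1, h_f11_2, q15_2, h_f33_7, s3, h_f11_0, q19_3]
                        · rcases h_p11_33A with q14_0 | q14_1 | q14_2 | q14_3 | q14_4
                          · linarith only [q14_0, e0]
                          · linarith only [q14_1, h_o0, h_f33_1, e0, s1, h_f11_0]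
                          · rcases h_p22_33A with q22_0 | q22_1 | q22_2 | q22_3 | q22_4
                            · linarith only [q0_0_1, q22_0, e0, q15_2, q1_0_0]
                            · linarith only [q22_1, h_o0, h_f33_1, e0, s1, h_f11_0]
                            · linarith only [q17_7_0, q0_0_1, q22_2, q15_2, s1, q8_1, h_f11_0, q1_0_0]
                            · linarith only [s1, h_f11_1, q14_2, q22_3, q0_0_1, q15_2, s2, q9_1, q17_7_0]
                            · linarith only [h_f33_7, h_f11_1, h_f11_2, q15_2, h_f22_6, s3, q9_1, h_f11_0, q22_4]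
                          · linarith only [q17_7_0, h_f11_0, q0_0_1, q14_3, h_f11_1, s2]
                          · linarith only [h_f33_7, s3, q14_4]
                    · linarith only [q0_1_1, q15_2]
                  · linarith only [h_f11_2, h_f33_4, h_o1, h_b5, q13_4, s3, s2, q15_3, q4_1]
                  · rcases h_f23_10 with q12_0 | q12_1
                    · linarith only [h_f23_9, q15_4_0, h_b5, q12_0, q11_1]
                    · rcases h_p11_23B with q24_0 | q24_1 | q24_2 | q24_3 | q24_4 | q24_5
                      · linarith only [q24_0, e0]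
                      · linarith only [q24_1, h_o0, e0, q1_0_0]
                      · linarith only [h_f11_2, h_f33_3, h_f11_1, h_o0, q15_4_0, h_f33_1, e0, h_b5, q13_4, s1, s3, s2, h_f11_0, q24_2]
                      · rcases h_f23_3 with q10_0 | q10_1 | q10_2
                        · linarith only [h_f11_0, h_f33_0, h_o0, s1, q10_0, q24_3]
                        · linarith only [h_f11_0, h_o0, q10_1, q24_3, q1_0_0]
                        · linarith only [h_f11_0, h_o0, h_f33_1, q13_4, s1, s3, h_f33_7, q10_2, q24_3]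
                      · rcases h_t12 with ⟨q0_0_0, q0_0_1⟩ | ⟨q0_1_0, q0_1_1⟩
                        · rcases h_tzmp with q19_0 | q19_1 | q19_2 | q19_3
                          · linarith only [q0_0_1, q19_0]
                          · linarith only [q19_1, q15_4_0, q24_4, h_f33_4, s2, q11_1]
                          · linarith only [q0_0_1, h_f11_0, h_o0, h_f11_1, q24_4, q11_1, q19_2, q1_0_0]
                          · linarith only [q15_4_1, h_f11_2, q15_4_0, q24_4, h_f33_7, s3, q19_3, q11_1]
                        · linarith only [q11_1, h_f11_0, q15_4_0, q24_4, h_f11_1, q0_1_1]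
                      · linarith only [q15_4_1, h_f33_7, s3, q12_1, q24_5]
                · linarith only [h_f11_2, h_f33_4, h_o1, h_b5, q13_4, s3, s2, q11_2, h_f23_5, q4_1]
              · rcases h_tzmp with q19_0 | q19_1 | q19_2 | q19_3
                · rcases h_t12 with ⟨q0_0_0, q0_0_1⟩ | ⟨q0_1_0, q0_1_1⟩
                  · linarith only [q0_0_1, q19_0]
                  · rcases h_tmzp with q20_0 | q20_1 | q20_2 | q20_3 | q20_4 | q20_5
                    · linarith only [s1, h_f33_0, h_o0, q20_0, h_f11_0]
                    · linarith only [q20_1, q19_0, q1_1_0, q0_1_1]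
                    · linarith only [q20_2, h_f11_1, h_o0, q19_0, h_f33_4, s2, h_f11_0]
                    · linarith only [q20_3, e0]
                    · linarith only [q20_4, q0_1_1]
                    · linarith only [q1_1_1, q20_5]
                · rcases h_tzpm with q15_0 | q15_1 | q15_2 | q15_3 | ⟨q15_4_0, q15_4_1⟩
                  · linarith only [q15_0, h_o0, h_f33_1, s1, h_f11_0, q19_1]
                  · linarith only [h_f11_2, h_f11_0, h_f11_1, h_o1, q1_1_1, q13_4, s3, h_b3, q15_1]
                  · linarith only [h_f33_4, h_f11_1, h_o1, q15_2, s2, h_f11_0, q19_1]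
                  · linarith only [h_f11_2, h_f33_4, h_o1, q1_1_1, q13_4, s3, s2, q15_3, q4_1]
                  · linarith only [h_f11_2, q15_4_1, q15_4_0, q1_1_1, q13_4, h_f33_4, q19_1, s2, q4_1]
                · linarith only [q1_1_0, q19_2]
                · rcases h_tmzp with q20_0 | q20_1 | q20_2 | q20_3 | q20_4 | q20_5
                  · linarith only [q20_0, h_f33_0, h_o0, s1, h_f11_0]
                  · rcases h_f13_5 with q6_0 | q6_1
                    · rcases h_p11_13B with q21_0 | q21_1 | q21_2 | q21_3 | q21_4 | q21_5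
                      · linarith only [q21_0, e0]
                      · linarith only [q21_1, h_o0, e0]
                      · linarith only [h_f11_2, h_f33_3, h_f11_1, h_o0, h_f33_1, e0, q13_4, s1, s3, h_f11_0, h_f33_6, q21_2]
                      · rcases h_p22_33A with q22_0 | q22_1 | q22_2 | q22_3 | q22_4
                        · linarith only [q22_0, e0, q1_1_0]
                        · linarith only [q22_1, h_o0, h_f33_1, e0, s1, h_f11_0]
                        · linarith only [q5_0, q22_2, q1_1_0, s1, q8_1, q21_3]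
                        · rcases h_f33_5 with q3_0 | q3_1
                          · linarith only [s2, h_f11_1, q22_3, q9_1, q20_1, s1, q5_0, q3_0, q1_1_0, q21_3]
                          · linarith only [q5_0, q20_1, q1_1_0, q22_3, h_f33_1, q9_1, s1, q21_3, q3_1]
                        · linarith only [q22_4, q9_1, q13_4, h_f22_6, s3, q1_1_1, q4_1]
                      · rcases h_tpzm with q17_0 | q17_1 | q17_2 | q17_3 | q17_4 | q17_5 | q17_6 | ⟨q17_7_0, q17_7_1⟩
                        · linarith only [q17_0, h_o0, e0]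
                        · linarith only [h_b3, q20_1, q17_1, q1_1_0]
                        · linarith only [h_f33_7, h_f11_1, h_f11_2, h_o0, h_o1, q21_4, s3, q6_0, q5_0, h_f11_0, q17_2]
                        · linarith only [q17_3, h_f33_0, h_o0, s1, h_f11_0]
                        · linarith only [q1_1_0, q17_4]
                        · linarith only [h_b3, q20_1, h_f11_1, h_o0, h_o1, h_f33_1, h_f33_4, q13_4, s1, s3, h_f11_2, h_f33_6, h_f11_0, q17_5]
                        · linarith only [q17_6, h_f11_1, h_f11_2, h_o0, q21_4, h_f33_7, s3, q6_0, q5_0, h_f11_0, q19_3]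
                        · rcases h_p22_33A with q22_0 | q22_1 | q22_2 | q22_3 | q22_4
                          · linarith only [q1_1_0, q22_0, e0]
                          · linarith only [q22_1, h_o0, h_f33_1, e0, s1, h_f11_0]
                          · linarith only [q17_7_0, q1_1_0, q22_2, s1, q8_1, h_f11_0]
                          · linarith only [q17_7_0, h_f11_1, q20_1, q22_3, q21_4, q6_0, q5_0, s2, q9_1, h_f11_0, q1_1_0]
                          · linarith only [h_f33_7, h_f11_1, h_f11_2, h_o0, q21_4, h_f22_6, s3, q6_0, q5_0, q9_1, h_f11_0, q22_4]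
                      · rcases h_t12 with ⟨q0_0_0, q0_0_1⟩ | ⟨q0_1_0, q0_1_1⟩
                        · rcases h_tpzm with q17_0 | q17_1 | q17_2 | q17_3 | q17_4 | q17_5 | q17_6 | ⟨q17_7_0, q17_7_1⟩
                          · linarith only [q17_0, h_o0, e0]
                          · linarith only [h_b3, q20_1, q17_1, q1_1_0]
                          · linarith only [h_f11_2, h_f11_0, h_f11_1, h_o1, q13_4, s3, q17_2, q1_1_1, h_b3]
                          · linarith only [q17_3, h_f33_0, h_o0, s1, h_f11_0]
                          · linarith only [q0_0_1, h_f11_0, h_f11_1, h_a2, h_f11_2, q7_1, q1_1_1, q17_4, q21_5]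
                          · linarith only [h_f33_6, h_f11_1, h_f33_4, h_o0, h_o1, q13_4, s3, q6_0, q5_0, h_f13_4, q17_5, h_f11_0, s2, h_f11_2]
                          · linarith only [q17_6, h_f33_7, s3, q7_1, q21_5]
                          · rcases h_p22_33A with q22_0 | q22_1 | q22_2 | q22_3 | q22_4
                            · linarith only [q22_0, e0, q1_1_0]
                            · linarith only [q22_1, h_o0, h_f33_1, e0, s1, h_f11_0]
                            · linarith only [h_f11_0, q22_2, h_f11_1, q0_0_1, h_a2, s1, h_f11_2, q7_1, q8_1, q1_1_1, q17_7_0, q21_5]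
                            · linarith only [q0_0_1, h_f11_0, h_f11_1, q22_3, q9_1, h_f11_2, q7_1, q1_1_1, q17_7_0, s2, q21_5]
                            · linarith only [q22_4, q9_1, q13_4, h_f22_6, s3, q7_1, q1_1_1, q21_5]
                        · linarith only [h_f11_2, h_f11_0, h_f11_1, q7_1, q1_1_1, q0_1_1, q21_5]
                    · rcases h_tpmz with q16_0 | q16_1 | q16_2 | q16_3 | q16_4 | q16_5
                      · linarith only [q16_0, h_o0, e0]
                      · linarith only [h_f11_2, h_f33_4, h_f11_1, h_o0, q16_1, h_f33_1, q13_4, s1, s3, h_f13_3, q6_1, h_f33_6, h_f13_0, h_f11_0, q20_1]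
                      · linarith only [q20_1, h_o0, h_f33_1, s1, h_f11_0, q16_2]
                      · linarith only [q16_3, h_f33_0, h_o0, s1, h_f11_0]
                      · linarith only [h_f11_2, h_f11_0, h_f11_1, q20_1, h_o1, h_f33_1, q1_1_1, q13_4, s1, h_f13_3, q6_1, q16_4, h_f13_0, q4_1]
                      · linarith only [q16_5, q1_1_1]
                  · rcases h_tzpm with q15_0 | q15_1 | q15_2 | q15_3 | ⟨q15_4_0, q15_4_1⟩
                    · linarith only [q15_0, h_o0, h_f33_1, s1, h_f11_0, q20_2]
                    · linarith only [h_f11_2, q15_1, h_o1, q1_1_1, q13_4, h_f33_4, s2, q20_2, q4_1]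
                    · linarith only [h_f33_4, h_f11_1, h_o1, q15_2, s2, h_f11_0, q20_2]
                    · linarith only [h_f11_2, h_f33_4, h_o1, q1_1_1, q13_4, s3, s2, q15_3, q4_1]
                    · linarith only [h_f11_2, q15_4_1, q15_4_0, q1_1_1, q13_4, h_f33_4, s2, q20_2, q4_1]
                  · linarith only [q20_3, e0]
                  · rcases h_t12 with ⟨q0_0_0, q0_0_1⟩ | ⟨q0_1_0, q0_1_1⟩
                    · rcases h_tpzm with q17_0 | q17_1 | q17_2 | q17_3 | q17_4 | q17_5 | q17_6 | ⟨q17_7_0, q17_7_1⟩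
                      · linarith only [q17_0, h_o0, e0]
                      · linarith only [q0_0_1, q17_1]
                      · linarith only [h_f33_7, h_f11_1, h_f11_2, h_o1, q20_4, s3, h_f11_0, q17_2]
                      · linarith only [q17_3, h_f33_0, h_o0, s1, h_f11_0]
                      · linarith only [q1_1_0, q17_4]
                      · linarith only [h_f33_6, h_f11_1, h_f33_4, h_o1, q20_4, q13_4, s3, s2, h_f11_0, q17_5, h_f11_2]
                      · linarith only [q17_6, h_f11_1, h_f11_2, q20_4, h_f33_7, s3, h_f11_0, q19_3]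
                      · rcases h_p22_33A with q22_0 | q22_1 | q22_2 | q22_3 | q22_4
                        · linarith only [q1_1_0, q22_0, e0]
                        · linarith only [q22_1, h_o0, h_f33_1, e0, s1, h_f11_0]
                        · linarith only [q17_7_0, q1_1_0, q22_2, s1, q8_1, h_f11_0]
                        · linarith only [s2, h_f11_1, q0_0_1, q22_3, q20_4, q9_1, h_f11_0, q17_7_0]
                        · linarith only [h_f33_7, h_f11_1, h_f11_2, q20_4, h_f22_6, s3, q9_1, h_f11_0, q22_4]
                    · linarith only [q0_1_1, q20_4]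
                  · linarith only [q20_5, q1_1_1]
  · linarith only [h_f13_0, h_o0, h_f33_1, h_o2, s1, q5_1, h_f11_0]

end Pool.Agent.Helper8.TQ
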