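import Pool.Agent.Helper89.TQ.Ctx

set_option autoImplicit false
set_option linter.all false
set_option maxRecDepth 10000

namespace Pool.Agent.Helper8.TQ

open Pool.Agent.Helper89.TQ

theorem c2_11_11_33_k0 {n1 n2 n3 A1 A2 A3 B1 B2 B3 m11_1 m11_2 m11_3 m12_1 m12_2 m12_3 m13_1 m13_2 m13_3 m22_1 m22_2 m22_3 m33_1 m33_2 m33_3 : ℤ}
    (C : Ctx2 n1 n2 n3 A1 A2 A3 B1 B2 B3 m11_1 m11_2 m11_3 m12_1 m12_2 m12_3 m13_1 m13_2 m13_3 m22_1 m22_2 m22_3 m33_1 m33_2 m33_3)
    (e0 : 0 < B1)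
    (e1 : 0 < A3)
    (s1 : 0 * A1 + 3 * B1 ≤ m11_1 + m11_1 + m33_1)
    (s2 : 0 * A2 + 3 * B2 ≤ m11_2 + m11_2 + m33_2)
    (s3 : 0 * A3 + 3 * B3 ≤ m11_3 + m11_3 + m33_3) : False := by
  have h_a2 := C.a2
  have h_a4 := C.a4
  have h_a5 := C.a5
  have h_b3 := C.b3
  have h_b4 := C.b4
  have h_b5 := C.b5
  have h_o0 := C.o0
  have h_o1 := C.o1
  have h_o2 := C.o2
  have h_t23 : (A1 < A2 ∧ A3 < A2 + n3) ∨ (B1 < B2 ∧ B3 < B2 + n3) := by have h := C.t23; clear * - h; omega
  have h_f11_0 := C.f11_0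
  have h_f11_1 := C.f11_1
  have h_f11_2 := C.f11_2
  have h_f33_0 := C.f33_0
  have h_f33_1 := C.f33_1
  have h_f33_3 := C.f33_3
  have h_f33_4 := C.f33_4
  have h_f33_5 : m33_2 = m33_1 + n2 ∨ m33_2 = A3 - 1 := by have h := C.f33_5; clear * - h; omega
  have h_f33_7 := C.f33_7
  have h_f33_8 : m33_3 = m33_2 + n3 ∨ m33_3 = A3 - 1 := by have h := C.f33_8; clear * - h; omega
  have h_f12_0 := C.f12_0
  have h_f12_2 : m12_1 = A1 - 1 ∨ m12_1 = B2 - 1 := by have h := C.f12_2; clear * - h; omega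
  have h_f12_4 := C.f12_4
  have h_f12_5 : m12_2 = m12_1 + n2 ∨ m12_2 = B2 - 1 := by have h := C.f12_5; clear * - h; omega
  have h_f12_6 := C.f12_6
  have h_p11_33B : 0 ≥ B1 ∨ 0 ≥ A3 ∨ 2 * B1 > m11_1 + m33_1 ∨ 2 * B2 > m11_2 + m33_2 ∨ 2 * B3 > m11_3 + m33_3 := by have h := C.p11_33B; clear * - h; omega
  have h_p11_33A : 0 ≥ B1 ∨ 0 ≥ A3 ∨ 2 * A1 > m11_1 + m33_1 ∨ 2 * A2 > m11_2 + m33_2 ∨ 2 * A3 > m11_3 + m33_3 := by have h := C.p11_33A; clear * - h; omega
  have h_tpmm : 1 > A1 ∨ A2 + 2 > A1 + n2 ∨ B1 + 1 > n1 ∨ B1 + 2 > B2 ∨ (A2 ≥ B2 - 1 ∧ A3 ≥ B3 - 1) ∨ B1 + 1 ≥ A1 := by have h := C.tpmm; clear * - h; omega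
  have h_tmpp : A1 + 1 > n1 ∨ A1 + 2 > A2 ∨ 1 > B1 ∨ B2 + 2 > B1 + n2 := by have h := C.tmpp; clear * - h; omega
  have h_tzmp : A2 + 1 > A1 + n2 ∨ A2 + 2 > A3 ∨ B1 + 1 > B2 ∨ B3 + 2 > B2 + n3 := by have h := C.tzmp; clear * - h; omega
  have h_p12_33A : 0 ≥ A1 ∨ 0 ≥ B2 ∨ 0 ≥ A3 ∨ 2 * A1 > m12_1 + m33_1 ∨ 2 * A2 > m12_2 + m33_2 ∨ 2 * A3 > m12_3 + m33_3 := by have h := C.p12_33A; clear * - h; omega
  have h_tpmz : 1 > A1 ∨ A2 + 2 > A1 + n2 ∨ A2 + 1 > A3 ∨ B1 + 1 > n1 ∨ B1 + 2 > B2 ∨ B3 + 1 > B2 + n3 ∨ B1 + 1 ≥ A1 := by have h := C.tpmz; clear * - h; omega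
  have h_p11_12B : 0 ≥ B1 ∨ 0 ≥ A1 ∨ 0 ≥ B2 ∨ 2 * B1 > m11_1 + m12_1 ∨ 2 * B2 > m11_2 + m12_2 ∨ 2 * B3 > m11_3 + m12_3 := by have h := C.p11_12B; clear * - h; omega
  clear C
  rcases h_f12_2 with q5_0 | q5_1
  · rcases h_f12_5 with q6_0 | q6_1
    · linarith only [h_b3, h_o0, q6_0, q5_0, h_f12_4]
    · rcases h_p11_33A with q8_0 | q8_1 | q8_2 | q8_3 | q8_4
      · linarith only [q8_0, e0]
      · linarith only [q8_1, h_o0, h_a2, h_a4, e0]
      · rcases h_f33_5 with q3_0 | q3_1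
        · rcases h_f33_8 with q4_0 | q4_1
          · linarith only [h_f33_7, h_f11_1, h_f11_2, h_o2, s1, s3, q3_0, h_f11_0, q4_0]
          · rcases h_p11_33B with q7_0 | q7_1 | q7_2 | q7_3 | q7_4
            · linarith only [q7_0, e0]
            · linarith only [q7_1, h_f33_1, e0, s1, h_f11_0]
            · linarith only [q7_2, s1, h_f11_0]
            · linarith only [s2, h_f11_1, q7_3, s1, q3_0, h_f11_0]
            · rcases h_tzmp with q12_0 | q12_1 | q12_2 | q12_3
              · linarith only [h_f33_3, h_f11_1, q8_2, s1, q12_0, h_o1, h_f11_0, s2]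
              · linarith only [h_f33_4, h_f11_1, q12_1, s1, q3_0, h_o1, h_f11_0, s2]
              · linarith only [q12_2, q8_2, h_a2, s1, h_o1, h_f11_0]
              · rcases h_p12_33A with q13_0 | q13_1 | q13_2 | q13_3 | q13_4 | q13_5
                · linarith only [q13_0, q8_2, e0, s1, h_f11_0]
                · linarith only [q13_1, q8_2, h_a2, e0, s1, h_o1, h_f11_0]
                · linarith only [q13_2, h_f33_1, e0, s1, h_f11_0]
                · rcases h_tpmm with q9_0 | q9_1 | q9_2 | q9_3 | ⟨q9_4_0, q9_4_1⟩ | q9_5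
                  · linarith only [q9_0, q8_2, e0, s1, h_f11_0]
                  · linarith only [h_f33_7, h_f11_1, h_f11_2, q8_2, h_o2, s1, s3, h_o1, h_f11_0, q12_3, q9_1]
                  · linarith only [q9_2, h_f33_0, s1, h_f11_0]
                  · linarith only [q9_3, q13_3, h_a2, s1, q5_0, h_o1, h_f11_0]
                  · rcases h_tpmz with q14_0 | q14_1 | q14_2 | q14_3 | q14_4 | q14_5 | q14_6
                    · linarith only [q14_0, q8_2, e0, s1, h_f11_0]
                    · linarith only [h_f33_7, h_f11_1, h_f11_2, q8_2, h_o2, s1, s3, h_o1, h_f11_0, q12_3, q14_1]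
                    · linarith only [h_f33_4, h_f11_1, q14_2, s1, q3_0, h_o1, h_f11_0, s2]
                    · linarith only [q14_3, h_f33_0, s1, h_f11_0]
                    · linarith only [q14_4, q13_3, h_a2, s1, q5_0, h_o1, h_f11_0]
                    · rcases h_t23 with ⟨q1_0_0, q1_0_1⟩ | ⟨q1_1_0, q1_1_1⟩
                      · linarith only [q9_4_1, h_o1, q14_5, q1_0_1]
                      · linarith only [q1_1_1, q14_5]
                    · linarith only [q14_6, q13_3, s1, q5_0, h_f11_0]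
                  · linarith only [q9_5, q13_3, s1, q5_0, h_f11_0]
                · linarith only [h_o1, h_f11_1, q13_4, q6_1, s1, q3_0, h_f11_0, s2]
                · rcases h_t23 with ⟨q1_0_0, q1_0_1⟩ | ⟨q1_1_0, q1_1_1⟩
                  · linarith only [q4_1, h_o1, q13_5, h_f12_6, q6_1, q1_0_1]
                  · linarith only [q1_1_1, q13_5, q7_4, s3, h_f12_6, q6_1, q4_1]
        · rcases h_f33_8 with q4_0 | q4_1
          · rcases h_t23 with ⟨q1_0_0, q1_0_1⟩ | ⟨q1_1_0, q1_1_1⟩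
            · linarith only [q4_0, h_f33_7, h_a4, q3_1, q1_0_1]
            · linarith only [h_b4, q1_1_1, q4_0, h_f33_7, q3_1]
          · rcases h_p12_33A with q13_0 | q13_1 | q13_2 | q13_3 | q13_4 | q13_5
            · linarith only [q13_0, q8_2, e0, s1, h_f11_0]
            · linarith only [h_o1, q8_2, h_a2, e0, s1, q13_1, h_f11_0]
            · linarith only [q13_2, h_f33_1, e0, s1, h_f11_0]
            · rcases h_p11_12B with q15_0 | q15_1 | q15_2 | q15_3 | q15_4 | q15_5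
              · linarith only [q15_0, e0]
              · linarith only [q15_1, q8_2, e0, s1, h_f11_0]
              · linarith only [h_o1, q8_2, h_a2, e0, s1, q15_2, h_f11_0]
              · linarith only [q15_3, q13_3, s1, q5_0, h_f11_0]
              · rcases h_tpmz with q14_0 | q14_1 | q14_2 | q14_3 | q14_4 | q14_5 | q14_6
                · linarith only [q14_0, q8_2, e0, s1, h_f11_0]
                · linarith only [h_f33_3, h_f11_1, q8_2, q14_1, s1, h_o1, h_f11_0, s2]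
                · linarith only [h_o1, q15_4, q14_2, q6_1, s2, h_f33_4]
                · linarith only [q14_3, h_f33_0, s1, h_f11_0]
                · linarith only [h_o1, q8_2, s1, h_a2, h_f11_0, q14_4]
                · linarith only [h_f33_7, h_f11_2, q15_4, h_o2, s3, q6_1, q14_5]
                · linarith only [q14_6, s1, q13_3, q5_0, h_f11_0]
              · linarith only [h_f33_7, h_b5, h_o2, h_f12_6, s3, q6_1, q15_5]
            · rcases h_p11_12B with q15_0 | q15_1 | q15_2 | q15_3 | q15_4 | q15_5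
              · linarith only [q15_0, e0]
              · linarith only [q15_1, q8_2, e0, s1, h_f11_0]
              · linarith only [h_o1, q13_4, h_f33_1, e0, s1, q15_2, q6_1, h_f11_0, q3_1]
              · rcases h_tmpp with q11_0 | q11_1 | q11_2 | q11_3
                · linarith only [q15_3, h_f33_0, q11_0, s1, q5_0, h_f11_0]
                · linarith only [q15_3, h_o1, q11_1, h_f33_1, s1, q5_0, q13_4, q6_1, h_f11_0, q3_1]
                · linarith only [q11_2, e0]
                · linarith only [h_o1, h_f11_1, q13_4, q11_3, s2, q6_1, h_f11_0]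
              · linarith only [h_o1, q15_4, q13_4, q6_1, s2]
              · linarith only [h_f33_7, h_b5, h_o2, h_f12_6, s3, q6_1, q15_5]
            · rcases h_t23 with ⟨q1_0_0, q1_0_1⟩ | ⟨q1_1_0, q1_1_1⟩
              · linarith only [q4_1, q13_5, h_o1, q6_1, h_f12_6, q1_0_1]
              · linarith only [q4_1, q1_1_1, h_o2, q13_5, h_f12_6, q6_1]
      · rcases h_f33_5 with q3_0 | q3_1
        · linarith only [q8_3, h_f11_1, h_o1, s1, s2, q3_0, h_f11_0]
        · linarith only [q8_3, h_a4, h_o1, s2, q3_1]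
      · rcases h_f33_8 with q4_0 | q4_1
        · rcases h_f33_5 with q3_0 | q3_1
          · linarith only [q4_0, h_f11_1, s3, q8_4, h_o2, s1, h_f11_2, q3_0, h_f11_0]
          · linarith only [q4_0, q8_4, h_o2, h_a4, h_a5, s3, q3_1]
        · linarith only [q4_1, q8_4, h_o2, s3]
  · linarith only [h_a2, h_f12_0, h_o1, q5_1]

end Pool.Agent.Helper8.TQ
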