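import Pool.Agent.Helper89.TQ.Ctx

set_option autoImplicit false
set_option linter.all false
set_option maxRecDepth 10000

namespace Pool.Agent.Helper8.TQ

open Pool.Agent.Helper89.TQ

theorem c2_11_22_33_k0 {n1 n2 n3 A1 A2 A3 B1 B2 B3 m11_1 m11_2 m11_3 m12_1 m12_2 m12_3 m13_1 m13_2 m13_3 m22_1 m22_2 m22_3 m33_1 m33_2 m33_3 : ℤ}
    (C : Ctx2 n1 n2 n3 A1 A2 A3 B1 B2 B3 m11_1 m11_2 m11_3 m12_1 m12_2 m12_3 m13_1 m13_2 m13_3 m22_1 m22_2 m22_3 m33_1 m33_2 m33_3)
    (e0 : 0 < B1)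
    (e1 : 0 < A2)
    (e2 : 0 < A3)
    (s1 : 0 * A1 + 3 * B1 ≤ m11_1 + m22_1 + m33_1)
    (s2 : 0 * A2 + 3 * B2 ≤ m11_2 + m22_2 + m33_2)
    (s3 : 0 * A3 + 3 * B3 ≤ m11_3 + m22_3 + m33_3) : False := by
  have h_a1 := C.a1
  have h_a2 := C.a2
  have h_a4 := C.a4
  have h_a5 := C.a5
  have h_b3 := C.b3
  have h_b4 := C.b4
  have h_o0 := C.o0
  have h_o1 := C.o1
  have h_f11_0 := C.f11_0
  have h_f11_1 := C.f11_1
  have h_f11_2 := C.f11_2
  have h_f22_1 := C.f22_1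
  have h_f22_2 : m22_1 = n1 ∨ m22_1 = A2 - 1 := by have h := C.f22_2; clear * - h; omega
  have h_f22_3 := C.f22_3
  have h_f22_4 := C.f22_4
  have h_f22_6 := C.f22_6
  have h_f33_1 := C.f33_1
  have h_f33_2 : m33_1 = n1 ∨ m33_1 = A3 - 1 := by have h := C.f33_2; clear * - h; omega
  have h_f33_3 := C.f33_3
  have h_f33_4 := C.f33_4
  have h_f33_8 : m33_3 = m33_2 + n3 ∨ m33_3 = A3 - 1 := by have h := C.f33_8; clear * - h; omega
  have h_f12_0 := C.f12_0
  have h_f12_2 : m12_1 = A1 - 1 ∨ m12_1 = B2 - 1 := by have h := C.f12_2; clear * - h; omega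
  have h_f12_4 := C.f12_4
  have h_f12_5 : m12_2 = m12_1 + n2 ∨ m12_2 = B2 - 1 := by have h := C.f12_5; clear * - h; omega
  have h_f12_6 := C.f12_6
  have h_f13_0 := C.f13_0
  have h_f13_2 : m13_1 = A1 - 1 ∨ m13_1 = B3 - 1 := by have h := C.f13_2; clear * - h; omega
  have h_f13_3 := C.f13_3
  have h_f13_4 := C.f13_4
  have h_f13_5 : m13_2 = m13_1 + n2 ∨ m13_2 = B3 - 1 := by have h := C.f13_5; clear * - h; omega
  have h_f13_7 := C.f13_7
  have h_f13_8 : m13_3 = m13_2 + n3 ∨ m13_3 = B3 - 1 := by have h := C.f13_8; clear * - h; omega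
  have h_p11_33B : 0 ≥ B1 ∨ 0 ≥ A3 ∨ 2 * B1 > m11_1 + m33_1 ∨ 2 * B2 > m11_2 + m33_2 ∨ 2 * B3 > m11_3 + m33_3 := by have h := C.p11_33B; clear * - h; omega
  have h_p11_22B : 0 ≥ B1 ∨ 0 ≥ A2 ∨ 2 * B1 > m11_1 + m22_1 ∨ 2 * B2 > m11_2 + m22_2 ∨ 2 * B3 > m11_3 + m22_3 := by have h := C.p11_22B; clear * - h; omega
  have h_tzmp : A2 + 1 > A1 + n2 ∨ A2 + 2 > A3 ∨ B1 + 1 > B2 ∨ B3 + 2 > B2 + n3 := by have h := C.tzmp; clear * - h; omega
  have h_p12_13B : 0 ≥ A1 ∨ 0 ≥ B2 ∨ 0 ≥ B3 ∨ 2 * B1 > m12_1 + m13_1 ∨ 2 * B2 > m12_2 + m13_2 ∨ 2 * B3 > m12_3 + m13_3 := by have h := C.p12_13B; clear * - h; omega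
  clear C
  rcases h_f12_2 with q7_0 | q7_1
  · rcases h_f12_5 with q8_0 | q8_1
    · linarith only [h_b3, q7_0, q8_0, h_o0, h_f12_4]
    · rcases h_f13_2 with q9_0 | q9_1
      · rcases h_p11_33B with q12_0 | q12_1 | q12_2 | q12_3 | q12_4
        · linarith only [q12_0, e0]
        · linarith only [h_f33_1, h_f22_1, h_a4, e0, s1, h_f11_0, q12_1]
        · rcases h_f33_2 with q4_0 | q4_1
          · linarith only [h_f11_0, h_o0, h_a1, q12_2, q4_0]
          · linarith only [s1, h_f11_0, h_f22_1, h_a4, q12_2, q4_1]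
        · linarith only [h_f22_4, h_o1, s2, q12_3]
        · rcases h_f33_8 with q6_0 | q6_1
          · linarith only [q6_0, h_f11_2, h_o1, q12_4, s2, h_f22_6, s3, h_f22_4]
          · rcases h_tzmp with q15_0 | q15_1 | q15_2 | q15_3
            · linarith only [h_b3, q15_0, h_o1, h_o0]
            · rcases h_p11_22B with q14_0 | q14_1 | q14_2 | q14_3 | q14_4
              · linarith only [q14_0, e0]
              · linarith only [q15_1, h_f22_1, h_f33_1, e0, s1, h_f11_0, q14_1]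
              · rcases h_f22_2 with q2_0 | q2_1
                · linarith only [q2_0, h_f11_0, h_o0, h_a1, q14_2]
                · rcases h_f13_5 with q10_0 | q10_1
                  · rcases h_f13_8 with q11_0 | q11_1
                    · linarith only [q15_1, h_f11_1, q9_0, h_f33_1, h_o1, q12_4, h_f33_3, s2, h_f22_6, q10_0, h_o0, q11_0, q14_2, s3, h_f22_4, q2_1, h_f13_7]
                    · rcases h_p12_13B with q16_0 | q16_1 | q16_2 | q16_3 | q16_4 | q16_5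
                      · linarith only [q16_0, e0, h_o0]
                      · linarith only [q15_1, h_f22_1, h_f33_1, e0, h_o1, s1, q16_1, h_f11_0]
                      · linarith only [q6_1, h_f11_2, q9_0, h_f22_1, h_f33_1, e0, h_o1, q12_4, s1, s2, q10_0, h_o0, h_f11_0, q16_2, h_f33_3, h_f13_4, h_a5, h_f22_3]
                      · linarith only [q16_3, q9_0, q7_0, h_o0]
                      · linarith only [q15_1, h_f11_1, q9_0, h_o1, s2, q8_1, q10_0, h_o0, h_f11_0, h_f22_4, h_f33_4, q16_4]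
                      · linarith only [q16_5, h_o1, q12_4, h_f22_6, h_f12_6, q8_1, q11_1, s3, h_f22_4]
                  · linarith only [h_a2, h_f11_0, h_f13_0, h_f11_2, s1, h_f11_1, h_f33_1, q12_4, h_f22_6, h_f13_3, q10_1, q14_2, s3, h_f22_4, q6_1, q2_1]
              · linarith only [s2, q15_1, h_o1, q14_3, h_f33_4]
              · linarith only [q15_1, h_f11_2, h_o1, q12_4, s2, h_f22_6, s3, h_f22_4, q14_4, h_f33_4]
            · linarith only [h_a2, h_o0, h_o1, q15_2]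
            · linarith only [q15_3, h_o1, q12_4, h_f22_6, s3, h_f22_4]
      · linarith only [h_a2, h_f13_0, h_o1, h_b4, q9_1]
  · linarith only [h_a2, h_f12_0, h_o1, q7_1]

end Pool.Agent.Helper8.TQ
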