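import Pool.Agent.Helper89.TQ.Ctx

set_option autoImplicit false
set_option linter.all false
set_option maxRecDepth 10000

namespace Pool.Agent.Helper8.TQ

open Pool.Agent.Helper89.TQ

theorem c2_11_22_33_k2 {n1 n2 n3 A1 A2 A3 B1 B2 B3 m11_1 m11_2 m11_3 m12_1 m12_2 m12_3 m13_1 m13_2 m13_3 m22_1 m22_2 m22_3 m33_1 m33_2 m33_3 : ℤ}
    (C : Ctx2 n1 n2 n3 A1 A2 A3 B1 B2 B3 m11_1 m11_2 m11_3 m12_1 m12_2 m12_3 m13_1 m13_2 m13_3 m22_1 m22_2 m22_3 m33_1 m33_2 m33_3)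
    (e0 : 0 < B1)
    (e1 : 0 < A2)
    (e2 : 0 < A3)
    (s1 : 2 * A1 + 1 * B1 ≤ m11_1 + m22_1 + m33_1)
    (s2 : 2 * A2 + 1 * B2 ≤ m11_2 + m22_2 + m33_2)
    (s3 : 2 * A3 + 1 * B3 ≤ m11_3 + m22_3 + m33_3) : False := by
  have h_a2 := C.a2
  have h_a4 := C.a4
  have h_a5 := C.a5
  have h_b3 := C.b3
  have h_b5 := C.b5
  have h_o0 := C.o0
  have h_o1 := C.o1
  have h_o2 := C.o2
  have h_f11_0 := C.f11_0
  have h_f11_1 := C.f11_1
  have h_f11_2 := C.f11_2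
  have h_f22_0 := C.f22_0
  have h_f22_1 := C.f22_1
  have h_f22_4 := C.f22_4
  have h_f22_6 := C.f22_6
  have h_f33_1 := C.f33_1
  have h_f33_2 : m33_1 = n1 ∨ m33_1 = A3 - 1 := by have h := C.f33_2; clear * - h; omega
  have h_f33_8 : m33_3 = m33_2 + n3 ∨ m33_3 = A3 - 1 := by have h := C.f33_8; clear * - h; omega
  have h_f12_0 := C.f12_0
  have h_f12_2 : m12_1 = A1 - 1 ∨ m12_1 = B2 - 1 := by have h := C.f12_2; clear * - h; omega
  have h_f12_4 := C.f12_4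
  have h_f12_5 : m12_2 = m12_1 + n2 ∨ m12_2 = B2 - 1 := by have h := C.f12_5; clear * - h; omega
  have h_f12_6 := C.f12_6
  have h_p11_33A : 0 ≥ B1 ∨ 0 ≥ A3 ∨ 2 * A1 > m11_1 + m33_1 ∨ 2 * A2 > m11_2 + m33_2 ∨ 2 * A3 > m11_3 + m33_3 := by have h := C.p11_33A; clear * - h; omega
  have h_p11_22B : 0 ≥ B1 ∨ 0 ≥ A2 ∨ 2 * B1 > m11_1 + m22_1 ∨ 2 * B2 > m11_2 + m22_2 ∨ 2 * B3 > m11_3 + m22_3 := by have h := C.p11_22B; clear * - h; omega
  have h_p12_33A : 0 ≥ A1 ∨ 0 ≥ B2 ∨ 0 ≥ A3 ∨ 2 * A1 > m12_1 + m33_1 ∨ 2 * A2 > m12_2 + m33_2 ∨ 2 * A3 > m12_3 + m33_3 := by have h := C.p12_33A; clear * - h; omega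
  clear C
  rcases h_f12_2 with q7_0 | q7_1
  · rcases h_f12_5 with q8_0 | q8_1
    · linarith only [h_b3, h_o0, q8_0, q7_0, h_f12_4]
    · rcases h_p11_33A with q10_0 | q10_1 | q10_2 | q10_3 | q10_4
      · linarith only [q10_0, e0]
      · linarith only [h_f33_1, h_o0, h_f22_1, h_a4, e0, s1, h_f11_0, q10_1]
      · rcases h_p12_33A with q15_0 | q15_1 | q15_2 | q15_3 | q15_4 | q15_5
        · linarith only [q15_0, h_o0, e0]
        · linarith only [q10_2, h_f22_1, e0, s1, h_o1, q15_1]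
        · linarith only [h_f33_1, h_o0, h_f22_1, h_a4, e0, s1, h_f11_0, q15_2]
        · rcases h_f33_2 with q4_0 | q4_1
          · linarith only [q15_3, h_f22_0, s1, q7_0, h_f11_0, q4_0]
          · linarith only [q15_3, h_f22_1, h_a4, s1, q7_0, h_f11_0, q4_1]
        · rcases h_p11_22B with q14_0 | q14_1 | q14_2 | q14_3 | q14_4
          · linarith only [q14_0, e0]
          · linarith only [q10_2, h_f22_1, e0, s1, q14_1]
          · linarith only [q10_2, h_f11_0, s1, q14_2]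
          · linarith only [q15_4, s2, q14_3, q8_1]
          · linarith only [h_f22_6, h_f11_2, s2, q14_4, q15_4, q8_1, h_b5]
        · rcases h_p11_22B with q14_0 | q14_1 | q14_2 | q14_3 | q14_4
          · linarith only [q14_0, e0]
          · linarith only [q10_2, h_f22_1, e0, s1, q14_1]
          · linarith only [q10_2, h_f11_0, s1, q14_2]
          · rcases h_f33_8 with q6_0 | q6_1
            · linarith only [h_a5, q15_5, s2, q14_3, q8_1, h_f12_6, q6_0]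
            · linarith only [h_f11_2, h_o2, q15_5, q14_3, h_f22_6, q8_1, h_f12_6, q6_1, s3]
          · linarith only [q15_5, q14_4, q8_1, h_f12_6, s3, h_b5]
      · linarith only [h_f22_4, s2, h_o1, q10_3]
      · rcases h_f33_8 with q6_0 | q6_1
        · linarith only [q6_0, h_f11_2, q10_4, s2, h_o2, h_o1, h_f22_6, s3, h_f22_4]
        · linarith only [h_f11_1, h_f11_0, h_f11_2, q10_4, h_o2, h_o1, h_f22_6, h_b3, s3, h_f22_4, q6_1]
  · linarith only [h_a2, h_o1, q7_1, h_f12_0]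

end Pool.Agent.Helper8.TQ
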