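import Pool.Agent.Helper89.TQ.Ctx

set_option autoImplicit false
set_option linter.all false
set_option maxRecDepth 10000

namespace Pool.Agent.Helper8.TQ

open Pool.Agent.Helper89.TQ

theorem c2_13_22_33_k3 {n1 n2 n3 A1 A2 A3 B1 B2 B3 m11_1 m11_2 m11_3 m12_1 m12_2 m12_3 m13_1 m13_2 m13_3 m22_1 m22_2 m22_3 m33_1 m33_2 m33_3 : ℤ}
    (C : Ctx2 n1 n2 n3 A1 A2 A3 B1 B2 B3 m11_1 m11_2 m11_3 m12_1 m12_2 m12_3 m13_1 m13_2 m13_3 m22_1 m22_2 m22_3 m33_1 m33_2 m33_3)
    (e0 : 0 < A1)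
    (e1 : 0 < B3)
    (e2 : 0 < A2)
    (e3 : 0 < A3)
    (s1 : 3 * A1 + 0 * B1 ≤ m13_1 + m22_1 + m33_1)
    (s2 : 3 * A2 + 0 * B2 ≤ m13_2 + m22_2 + m33_2)
    (s3 : 3 * A3 + 0 * B3 ≤ m13_3 + m22_3 + m33_3) : False := by
  have h_a2 := C.a2
  have h_a4 := C.a4
  have h_b0 := C.b0
  have h_b3 := C.b3
  have h_b4 := C.b4
  have h_o0 := C.o0
  have h_o1 := C.o1
  have h_o2 := C.o2
  have h_f13_0 := C.f13_0
  have h_f13_1 := C.f13_1
  have h_f13_2 : m13_1 = A1 - 1 ∨ m13_1 = B3 - 1 := by have h := C.f13_2; clear * - h; omega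
  have h_f13_3 := C.f13_3
  have h_f13_4 := C.f13_4
  have h_f13_5 : m13_2 = m13_1 + n2 ∨ m13_2 = B3 - 1 := by have h := C.f13_5; clear * - h; omega
  have h_f13_6 := C.f13_6
  have h_f13_8 : m13_3 = m13_2 + n3 ∨ m13_3 = B3 - 1 := by have h := C.f13_8; clear * - h; omega
  have h_f22_1 := C.f22_1
  have h_f22_2 : m22_1 = n1 ∨ m22_1 = A2 - 1 := by have h := C.f22_2; clear * - h; omega
  have h_f22_3 := C.f22_3
  have h_f22_4 := C.f22_4
  have h_f22_5 : m22_2 = m22_1 + n2 ∨ m22_2 = A2 - 1 := by have h := C.f22_5; clear * - h; omega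
  have h_f22_6 := C.f22_6
  have h_f33_0 := C.f33_0
  have h_f33_1 := C.f33_1
  have h_f33_4 := C.f33_4
  have h_f33_5 : m33_2 = m33_1 + n2 ∨ m33_2 = A3 - 1 := by have h := C.f33_5; clear * - h; omega
  have h_f33_7 := C.f33_7
  have h_f33_8 : m33_3 = m33_2 + n3 ∨ m33_3 = A3 - 1 := by have h := C.f33_8; clear * - h; omega
  have h_f12_0 := C.f12_0
  have h_f12_2 : m12_1 = A1 - 1 ∨ m12_1 = B2 - 1 := by have h := C.f12_2; clear * - h; omega
  have h_f12_4 := C.f12_4
  have h_f12_5 : m12_2 = m12_1 + n2 ∨ m12_2 = B2 - 1 := by have h := C.f12_5; clear * - h; omega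
  have h_f12_6 := C.f12_6
  have h_p13_33A : 0 ≥ A1 ∨ 0 ≥ B3 ∨ 0 ≥ A3 ∨ 2 * A1 > m13_1 + m33_1 ∨ 2 * A2 > m13_2 + m33_2 ∨ 2 * A3 > m13_3 + m33_3 := by have h := C.p13_33A; clear * - h; omega
  have h_p22_33A : 0 ≥ A2 ∨ 0 ≥ A3 ∨ 2 * A1 > m22_1 + m33_1 ∨ 2 * A2 > m22_2 + m33_2 ∨ 2 * A3 > m22_3 + m33_3 := by have h := C.p22_33A; clear * - h; omega
  have h_p13_22A : 0 ≥ A1 ∨ 0 ≥ B3 ∨ 0 ≥ A2 ∨ 2 * A1 > m13_1 + m22_1 ∨ 2 * A2 > m13_2 + m22_2 ∨ 2 * A3 > m13_3 + m22_3 := by have h := C.p13_22A; clear * - h; omega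
  have h_p12_33A : 0 ≥ A1 ∨ 0 ≥ B2 ∨ 0 ≥ A3 ∨ 2 * A1 > m12_1 + m33_1 ∨ 2 * A2 > m12_2 + m33_2 ∨ 2 * A3 > m12_3 + m33_3 := by have h := C.p12_33A; clear * - h; omega
  clear C
  rcases h_f13_2 with q2_0 | q2_1
  · rcases h_f12_2 with q10_0 | q10_1
    · rcases h_f12_5 with q11_0 | q11_1
      · linarith only [h_f12_4, h_b3, q11_0, h_o0, q10_0]
      · rcases h_f22_5 with q6_0 | q6_1
        · rcases h_f22_2 with q5_0 | q5_1
          · linarith only [q5_0, h_f33_0, h_b3, h_o1, q6_0, s1, h_f13_0, h_o0, h_f22_4]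
          · linarith only [h_o1, h_a2, q6_0, q5_1, h_b3, h_o0, h_f22_4]
        · rcases h_p13_22A with q14_0 | q14_1 | q14_2 | q14_3 | q14_4 | q14_5
          · linarith only [q14_0, e0]
          · linarith only [h_o2, e0, h_f22_1, h_f33_1, h_f13_1, s1, h_o1, q14_1, h_b4]
          · linarith only [e2, q14_2]
          · rcases h_p13_33A with q12_0 | q12_1 | q12_2 | q12_3 | q12_4 | q12_5
            · linarith only [q12_0, e0]
            · linarith only [h_o2, e0, h_f22_1, h_f33_1, h_f13_1, s1, h_o1, q12_1, h_b4]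
            · linarith only [h_a4, e0, h_f22_1, h_f33_1, q12_2, s1, h_f13_0]
            · linarith only [q2_0, s1, q14_3, q12_3]
            · linarith only [q12_4, s2, h_f22_4]
            · rcases h_f33_8 with q9_0 | q9_1
              · rcases h_f13_8 with q4_0 | q4_1
                · linarith only [q9_0, q4_0, s2, s3, h_f22_6, h_f22_4, q12_5]
                · rcases h_f33_5 with q8_0 | q8_1
                  · linarith only [h_f22_6, q8_0, h_f33_7, s1, s3, h_f13_3, q9_0, h_f22_3, q14_3, h_f13_6]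
                  · linarith only [q9_0, q4_1, h_f33_7, s2, s3, h_f13_4, q8_1, h_f22_4, q12_5, h_f22_6]
              · rcases h_p22_33A with q13_0 | q13_1 | q13_2 | q13_3 | q13_4
                · linarith only [e2, q13_0]
                · linarith only [h_a4, e0, h_f22_1, h_f33_1, q13_1, s1, h_f13_0]
                · linarith only [q13_2, s1, h_f13_0]
                · rcases h_f13_8 with q4_0 | q4_1
                  · linarith only [q13_3, q4_0, s2, s3, q9_1, h_f22_6, h_f22_4, q12_5]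
                  · rcases h_f33_5 with q8_0 | q8_1
                    · linarith only [q14_3, q13_3, q8_0, s1, h_o1, h_o0, h_b3, q6_1]
                    · rcases h_p12_33A with q17_0 | q17_1 | q17_2 | q17_3 | q17_4 | q17_5
                      · linarith only [q17_0, e0]
                      · linarith only [q8_1, h_o1, q13_3, h_f22_1, q6_1, s1, h_f33_1, q17_1, h_b0, h_f13_0, h_o0]
                      · linarith only [q9_1, q12_5, e0, h_f22_1, h_f33_1, q17_2, s1, s2, h_f13_0, h_f13_4, q4_1, h_f22_4, h_f33_4]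
                      · linarith only [q14_3, q10_0, q17_3, s1]
                      · linarith only [q9_1, h_o1, q4_1, q17_4, q11_1, s2, h_f13_4, q8_1, h_f22_4, q12_5]
                      · linarith only [q9_1, h_o1, q17_5, q11_1, h_f12_6, s3, h_f22_4, q12_5, h_f22_6]
                · linarith only [q9_1, q13_4, s3, q12_5]
          · rcases h_f13_5 with q3_0 | q3_1
            · linarith only [q6_1, h_o1, q14_4, q3_0, h_o0, h_b3, q2_0]
            · linarith only [q6_1, h_o2, s2, q14_4, q3_1, h_f33_4]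
          · linarith only [h_f33_7, q14_5, s3]
    · linarith only [h_o1, q10_1, h_f12_0, h_a2]
  · linarith only [q2_1, h_f22_1, h_f33_1, h_o2, s1, s2, h_f13_0, h_f13_4, h_f22_4, h_f33_4]

end Pool.Agent.Helper8.TQ
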