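import Pool.Agent.Helper89.TQ.Ctx

set_option autoImplicit false
set_option linter.all false
set_option maxRecDepth 10000

namespace Pool.Agent.Helper8.TQ

open Pool.Agent.Helper89.TQ

theorem c3_22_22_33_k0 {n1 n2 n3 A1 A2 A3 B1 B2 B3 m11_1 m11_2 m11_3 m22_1 m22_2 m22_3 m23_1 m23_2 m23_3 m33_1 m33_2 m33_3 : ℤ}
    (C : Ctx3 n1 n2 n3 A1 A2 A3 B1 B2 B3 m11_1 m11_2 m11_3 m22_1 m22_2 m22_3 m23_1 m23_2 m23_3 m33_1 m33_2 m33_3)
    (e0 : 0 < B2)
    (e1 : 0 < A3)
    (s1 : 0 * A1 + 3 * B1 ≤ m22_1 + m22_1 + m33_1)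
    (s2 : 0 * A2 + 3 * B2 ≤ m22_2 + m22_2 + m33_2)
    (s3 : 0 * A3 + 3 * B3 ≤ m22_3 + m22_3 + m33_3) : False := by
  have h_a3 := C.a3
  have h_a4 := C.a4
  have h_b2 := C.b2
  have h_o0 := C.o0
  have h_o1 := C.o1
  have h_o2 := C.o2
  have h_t12 : (0 < A1 ∧ A2 < A1 + n2) ∨ (0 < B1 ∧ B2 < B1 + n2) := by have h := C.t12; clear * - h; omega
  have h_f22_0 := C.f22_0
  have h_f22_1 := C.f22_1
  have h_f22_4 := C.f22_4
  have h_f22_6 := C.f22_6
  have h_f33_0 := C.f33_0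
  have h_f33_1 := C.f33_1
  have h_f33_2 : m33_1 = n1 ∨ m33_1 = A3 - 1 := by have h := C.f33_2; clear * - h; omega
  have h_f33_3 := C.f33_3
  have h_f33_4 := C.f33_4
  have h_f33_7 := C.f33_7
  have h_f33_8 : m33_3 = m33_2 + n3 ∨ m33_3 = A3 - 1 := by have h := C.f33_8; clear * - h; omega
  have h_f23_0 := C.f23_0
  have h_f23_3 : m23_1 = n1 ∨ m23_1 = A2 - 1 ∨ m23_1 = B3 - 1 := by have h := C.f23_3; clear * - h; omega
  have h_f23_5 := C.f23_5
  have h_f23_7 : m23_2 = m23_1 + n2 ∨ m23_2 = A2 - 1 ∨ m23_2 = B3 - 1 := by have h := C.f23_7; clear * - h; omega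
  have h_f23_9 := C.f23_9
  have h_f23_10 : m23_3 = m23_2 + n3 ∨ m23_3 = B3 - 1 := by have h := C.f23_10; clear * - h; omega
  have h_p22_33A : 0 ≥ B2 ∨ 0 ≥ A3 ∨ 2 * A1 > m22_1 + m33_1 ∨ 2 * A2 > m22_2 + m33_2 ∨ 2 * A3 > m22_3 + m33_3 := by have h := C.p22_33A; clear * - h; omega
  have h_tmzp : A1 + 1 > n1 ∨ A1 + 1 > A2 ∨ A2 + 1 > A3 ∨ 1 > B1 ∨ B2 + 1 > B1 + n2 ∨ B3 + 1 > B2 + n3 := by have h := C.tmzp; clear * - h; omega
  have h_tzmp : A2 + 1 > A1 + n2 ∨ A2 + 2 > A3 ∨ B1 + 1 > B2 ∨ B3 + 2 > B2 + n3 := by have h := C.tzmp; clear * - h; omega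
  have h_p22_23B : 0 ≥ B2 ∨ 0 ≥ A2 ∨ 0 ≥ B3 ∨ 2 * B1 > m22_1 + m23_1 ∨ 2 * B2 > m22_2 + m23_2 ∨ 2 * B3 > m22_3 + m23_3 := by have h := C.p22_23B; clear * - h; omega
  clear C
  rcases h_f33_8 with q6_0 | q6_1
  · linarith only [h_f33_7, h_f22_6, h_o2, s2, s3, q6_0, h_f22_4]
  · rcases h_f23_7 with q8_0 | q8_1 | q8_2
    · rcases h_f23_3 with q7_0 | q7_1 | q7_2
      · linarith only [h_f22_0, h_f33_0, h_a3, q8_0, h_f23_5, h_o0, s1, q7_0]
      · linarith only [h_b2, h_a3, q8_0, h_o1, h_o0, q7_1, h_f23_5]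
      · linarith only [h_f33_1, h_a3, q8_0, h_o1, h_a4, h_o0, h_o2, s1, h_f22_1, q7_2, h_f23_5]
    · rcases h_f23_10 with q9_0 | q9_1
      · linarith only [h_f33_7, h_f22_6, h_o1, h_o2, s3, q9_0, q8_1, h_f23_9, h_f22_4]
      · rcases h_p22_33A with q11_0 | q11_1 | q11_2 | q11_3 | q11_4
        · linarith only [q11_0, e0]
        · linarith only [q11_1, h_o1, h_a4, e0]
        · rcases h_f33_2 with q4_0 | q4_1
          · linarith only [q4_0, h_f22_0, h_o0, s1, q11_2]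
          · linarith only [h_f22_1, q11_2, h_f33_4, h_o0, s1, s2, q4_1, h_f22_4]
        · rcases h_tmzp with q13_0 | q13_1 | q13_2 | q13_3 | q13_4 | q13_5
          · rcases h_f23_3 with q7_0 | q7_1 | q7_2
            · rcases h_p22_23B with q16_0 | q16_1 | q16_2 | q16_3 | q16_4 | q16_5
              · linarith only [q16_0, e0]
              · linarith only [q16_1, q11_3, e0, s2, h_f22_4]
              · linarith only [q16_2, h_f33_4, e0, h_o2, s2, h_f22_4]
              · linarith only [h_f22_0, h_f33_0, q7_0, s1, q16_3]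
              · rcases h_tzmp with q14_0 | q14_1 | q14_2 | q14_3
                · linarith only [q16_4, h_f33_0, q13_0, q14_0, h_f33_3, s2, q8_1, h_f22_4]
                · linarith only [q16_4, q14_1, h_f33_4, s2, q8_1, h_f22_4]
                · linarith only [h_f22_1, h_f33_0, h_o0, q13_0, s1, q14_2]
                · linarith only [h_f33_7, h_f22_6, h_o2, s3, h_f22_4, q14_3]
              · linarith only [h_f33_7, h_o2, s3, q9_1, q16_5]
            · linarith only [h_f22_1, h_f33_0, h_o0, q13_0, q11_3, s1, s2, q7_1, h_f23_0, h_f22_4]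
            · linarith only [h_b2, h_f23_0, q13_0, h_f33_4, h_o0, h_o2, s2, q7_2, h_f22_4]
          · linarith only [h_f22_4, q13_1, q11_3, h_b2, s2, h_o0]
          · rcases h_p22_23B with q16_0 | q16_1 | q16_2 | q16_3 | q16_4 | q16_5
            · linarith only [q16_0, e0]
            · linarith only [q16_1, q13_2, h_f33_4, e0, s2, h_f22_4]
            · linarith only [q16_2, h_f33_4, e0, h_o2, s2, h_f22_4]
            · rcases h_f23_3 with q7_0 | q7_1 | q7_2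
              · linarith only [h_f33_0, h_f22_0, s1, q7_0, q16_3]
              · linarith only [h_f33_1, q13_2, h_f33_4, s1, h_f22_1, s2, q7_1, q16_3, h_f22_4]
              · linarith only [h_f33_1, h_f33_4, q16_3, h_o2, s1, s2, q7_2, h_f22_1, h_f22_4]
            · linarith only [q16_4, q13_2, h_f33_4, s2, q8_1, h_f22_4]
            · linarith only [h_f33_7, h_o2, s3, q9_1, q16_5]
          · rcases h_t12 with ⟨q0_0_0, q0_0_1⟩ | ⟨q0_1_0, q0_1_1⟩
            · linarith only [q13_3, q0_0_0, h_o0]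
            · linarith only [q13_3, q0_1_0]
          · linarith only [q13_4, h_o0, h_a3, q11_3, s2, h_f22_4]
          · linarith only [h_f33_7, h_f22_6, h_o2, s3, h_f22_4, q13_5]
        · linarith only [q11_4, h_o2, s3, q6_1]
    · linarith only [h_a4, h_f23_5, h_o2, q8_2]

end Pool.Agent.Helper8.TQ
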